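import Mathlib

set_option autoImplicit false
set_option maxHeartbeats 4000000

/-! # Zeros of affine forms modulo a prime

The forms: `w none + k`, and `∑ l, w (j, l) C(k, l)` for `j < r`. -/

namespace Pool.Agent.L5helper1.PS

open Finset
open scoped Classical

/-- all fibres of a surjective homomorphism have the same number of elements -/
lemma fiber_card {V G : Type*} [AddGroup V] [Fintype V] [AddGroup G] [Fintype G]
    (φ : V →+ G) (hφ : Function.Surjective φ) (y : G) :
    (univ.filter (fun w => φ w = y)).card * Fintype.card G = Fintype.card V := by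
  have h1 : ∀ y', (univ.filter (fun w => φ w = y')).card = (univ.filter (fun w => φ w = y)).card :=
    fun y' => AddMonoidHom.card_fiber_eq_of_mem_range φ (hφ y') (hφ y)
  have h2 := Finset.card_eq_sum_card_fiberwise (s := (univ : Finset V)) (t := (univ : Finset G))
    (f := φ) (fun _ _ => by simp)
  rw [Finset.sum_congr rfl fun y' _ => h1 y', Finset.sum_const, smul_eq_mul, Finset.card_univ,
    Finset.card_univ] at h2
  rw [h2, mul_comm]

section

variable {r : ℕ} {d : Fin r → ℕ}

/-- the values of the forms -/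
def vl {R : Type*} [CommRing R] (w : Option (Σ j : Fin r, Fin (d j + 1)) → R) :
    Option (Fin r) → ℕ → R
  | none, k => w none + k
  | some j, k => ∑ l : Fin (d j + 1), w (some ⟨j, l⟩) * ((k.choose l : ℕ) : R)

/-- the linear parts of the forms -/
def ln (R : Type*) [CommRing R] (k : ℕ) : Option (Fin r) →
    ((Option (Σ j : Fin r, Fin (d j + 1)) → R) →+ R)
  | none =>
    { toFun := fun w => w none
      map_zero' := rfl
      map_add' := fun _ _ => rfl }
  | some j =>
    { toFun := fun w => ∑ l : Fin (d j + 1), w (some ⟨j, l⟩) * ((k.choose l : ℕ) : R)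
      map_zero' := by simp
      map_add' := fun x y => by
        simp only [Pi.add_apply, add_mul, Finset.sum_add_distrib] }

/-- the constant terms -/
def cn (R : Type*) [CommRing R] (k : ℕ) : Option (Fin r) → R
  | none => k
  | some _ => 0

lemma vl_eq {R : Type*} [CommRing R] (w : Option (Σ j : Fin r, Fin (d j + 1)) → R)
    (c : Option (Fin r)) (k : ℕ) : vl w c k = ln R k c w + cn R k c := by
  cases c with
  | none => rfl
  | some j => simp [vl, ln, cn]

lemma vl_cast (p : ℕ) (w : Option (Σ j : Fin r, Fin (d j + 1)) → ℤ)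
    (c : Option (Fin r)) (k : ℕ) :
    vl (fun t => (w t : ZMod p)) c k = ((vl w c k : ℤ) : ZMod p) := by
  cases c with
  | none => simp [vl]
  | some j => simp [vl]

/-- the coordinate of the constant term of the form -/
def pv : Option (Fin r) → Option (Σ j : Fin r, Fin (d j + 1))
  | none => none
  | some j => some ⟨j, 0⟩

lemma ln_single {R : Type*} [CommRing R] (k : ℕ) (c : Option (Fin r)) (x : R) :
    ln R k c (Pi.single (pv (d := d) c) x) = x := by
  cases c with
  | none => simp [ln, pv]
  | some j =>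
    simp only [ln, pv, AddMonoidHom.coe_mk, ZeroHom.coe_mk]
    rw [Finset.sum_eq_single (0 : Fin (d j + 1))]
    · simp
    · intro l _ hl
      rw [Pi.single_eq_of_ne, zero_mul]
      intro h
      apply hl
      have h1 := Option.some.inj h
      have h2 := Sigma.mk.inj_iff.mp h1
      exact eq_of_heq h2.2
    · intro h
      exact absurd (Finset.mem_univ _) h

lemma ln_single_ne {R : Type*} [CommRing R] (k : ℕ) (c c' : Option (Fin r)) (hc : c ≠ c') (x : R) :
    ln R k c (Pi.single (pv (d := d) c') x) = 0 := by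
  cases c with
  | none =>
    cases c' with
    | none => exact absurd rfl hc
    | some j => simp [ln, pv]
  | some j =>
    simp only [ln, AddMonoidHom.coe_mk, ZeroHom.coe_mk]
    apply Finset.sum_eq_zero
    intro l _
    rw [Pi.single_eq_of_ne, zero_mul]
    cases c' with
    | none => simp [pv]
    | some j' =>
      intro h
      have h1 := Option.some.inj h
      have h2 := Sigma.mk.inj_iff.mp h1
      exact hc (congrArg some h2.1)

lemma ln_single1 {R : Type*} [CommRing R] (k : ℕ) (j : Fin r) (hd : 1 ≤ d j) (x : R) :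
    ln R k (some j) (Pi.single (some ⟨j, ⟨1, by omega⟩⟩ : Option (Σ j : Fin r, Fin (d j + 1))) x) =
      x * k := by
  simp only [ln, AddMonoidHom.coe_mk, ZeroHom.coe_mk]
  rw [Finset.sum_eq_single (⟨1, by omega⟩ : Fin (d j + 1))]
  · simp
  · intro l _ hl
    rw [Pi.single_eq_of_ne, zero_mul]
    intro h
    apply hl
    have h1 := Option.some.inj h
    have h2 := Sigma.mk.inj_iff.mp h1
    exact eq_of_heq h2.2
  · intro h
    exact absurd (Finset.mem_univ _) h

/-- the zeros of a form modulo `p` -/
noncomputable def zs (d : Fin r → ℕ) (p : ℕ) [NeZero p] (x : Option (Fin r) × ℕ) :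
    Finset (Option (Σ j : Fin r, Fin (d j + 1)) → ZMod p) :=
  univ.filter (fun w => vl w x.1 x.2 = 0)

lemma card_V (p : ℕ) [NeZero p] :
    Fintype.card (Option (Σ j : Fin r, Fin (d j + 1)) → ZMod p) =
      p ^ Fintype.card (Option (Σ j : Fin r, Fin (d j + 1))) := by
  rw [Fintype.card_fun, ZMod.card]

lemma zs_card (p : ℕ) [NeZero p] (x : Option (Fin r) × ℕ) :
    (zs d p x).card * p = p ^ Fintype.card (Option (Σ j : Fin r, Fin (d j + 1))) := by
  have h1 : zs d p x = univ.filter (fun w => ln (ZMod p) x.2 x.1 w = -cn (ZMod p) x.2 x.1) := by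
    unfold zs
    apply Finset.filter_congr
    intro w _
    rw [vl_eq, ← eq_neg_iff_add_eq_zero]
  have h2 := fiber_card (ln (d := d) (ZMod p) x.2 x.1)
    (fun y => ⟨Pi.single (pv x.1) y, ln_single _ _ _⟩) (-cn (ZMod p) x.2 x.1)
  rw [ZMod.card, card_V] at h2
  rw [h1, ← h2]
  congr 2
  ext w
  simp only [Finset.mem_filter]

lemma zs_inter (p : ℕ) (hp : p.Prime) [NeZero p] (hd : ∀ j, 1 ≤ d j) (x y : Option (Fin r) × ℕ)
    (hxy : x ≠ y) (hx : x.2 < p) (hy : y.2 < p) :
    (zs d p x ∩ zs d p y).card * p ^ 2 ≤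
      p ^ Fintype.card (Option (Σ j : Fin r, Fin (d j + 1))) := by
  have : Fact p.Prime := ⟨hp⟩
  have hne : x.1 = y.1 → ((x.2 : ℕ) : ZMod p) ≠ ((y.2 : ℕ) : ZMod p) := by
    intro h1 h2
    apply hxy
    refine Prod.ext h1 ?_
    have h3 := (ZMod.natCast_eq_natCast_iff' _ _ _).mp h2
    rwa [Nat.mod_eq_of_lt hx, Nat.mod_eq_of_lt hy] at h3
  -- the surjective case
  have key : Function.Surjective ((ln (d := d) (ZMod p) x.2 x.1).prod (ln (ZMod p) y.2 y.1)) →
      (zs d p x ∩ zs d p y).card * p ^ 2 ≤
      p ^ Fintype.card (Option (Σ j : Fin r, Fin (d j + 1))) := by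
    intro hs
    have h1 : zs d p x ∩ zs d p y = univ.filter (fun w =>
        ((ln (d := d) (ZMod p) x.2 x.1).prod (ln (ZMod p) y.2 y.1)) w =
          (-cn (ZMod p) x.2 x.1, -cn (ZMod p) y.2 y.1)) := by
      unfold zs
      rw [← Finset.filter_and]
      apply Finset.filter_congr
      intro w _
      rw [vl_eq, vl_eq, ← eq_neg_iff_add_eq_zero, ← eq_neg_iff_add_eq_zero,
        AddMonoidHom.prod_apply, Prod.mk.injEq]
    have h2 := fiber_card _ hs (-cn (ZMod p) x.2 x.1, -cn (ZMod p) y.2 y.1)
    rw [Fintype.card_prod, ZMod.card, card_V, ← pow_two] at h2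
    rw [h1, ← h2]
    refine le_of_eq ?_
    congr 2
    ext w
    simp only [Finset.mem_filter]
  by_cases hc : x.1 = y.1
  · obtain ⟨c, k⟩ := x
    obtain ⟨c', k'⟩ := y
    simp only at hc
    subst hc
    have hkk := hne rfl
    simp only at hkk
    cases c with
    | none =>
      have h1 : zs d p (none, k) ∩ zs d p (none, k') = ∅ := by
        rw [Finset.eq_empty_iff_forall_notMem]
        intro w hw
        rw [Finset.mem_inter] at hw
        unfold zs at hw
        rw [Finset.mem_filter, Finset.mem_filter] at hw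
        have h2 := hw.1.2
        have h3 := hw.2.2
        simp only [vl] at h2 h3
        apply hkk
        exact add_left_cancel (h2.trans h3.symm)
      rw [h1]
      simp
    | some j =>
      apply key
      rintro ⟨a, b⟩
      set δ : ZMod p := (k' : ZMod p) - (k : ZMod p) with hδ
      have hδ0 : δ ≠ 0 := fun h => hkk (sub_eq_zero.mp h).symm
      set s : ZMod p := (b - a) / δ with hs
      refine ⟨Pi.single (pv (some j)) (a - s * k) + Pi.single (some ⟨j, ⟨1, by
        have := hd j; omega⟩⟩) s, ?_⟩
      rw [AddMonoidHom.prod_apply, map_add, map_add, ln_single, ln_single,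
        ln_single1 _ _ (hd j), ln_single1 _ _ (hd j)]
      simp only [Prod.mk.injEq]
      constructor
      · ring
      · have : s * δ = b - a := by rw [hs]; field_simp
        have e : a - s * k + s * k' = a + s * δ := by rw [hδ]; ring
        rw [e, this]
        ring
  · apply key
    rintro ⟨a, b⟩
    refine ⟨Pi.single (pv x.1) a + Pi.single (pv y.1) b, ?_⟩
    rw [AddMonoidHom.prod_apply, map_add, map_add, ln_single, ln_single,
      ln_single_ne _ _ _ hc, ln_single_ne _ _ _ (Ne.symm hc)]
    simp

/-- disjoint sets of zeros of the same size -/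
lemma exists_RS (hr : 1 ≤ r) (hd : ∀ j, 1 ≤ d j) (p : ℕ) (hp : p.Prime)
    {κ' : Type} [Fintype κ'] (f : κ' → Option (Fin r) × ℕ) (hf : Function.Injective f)
    (hfp : ∀ c, (f c).2 < p) :
    ∃ RS : κ' → Finset (Option (Σ j : Fin r, Fin (d j + 1)) → ZMod p),
      (∀ c, ∀ w ∈ RS c, vl w (f c).1 (f c).2 = 0) ∧
      (∀ c c', c ≠ c' → Disjoint (RS c) (RS c')) ∧
      ∀ c, (RS c).card = p ^ (Fintype.card (Option (Σ j : Fin r, Fin (d j + 1))) - 1) -
        Fintype.card κ' * p ^ (Fintype.card (Option (Σ j : Fin r, Fin (d j + 1))) - 2) := by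
  have : NeZero p := ⟨hp.ne_zero⟩
  set M := Fintype.card (Option (Σ j : Fin r, Fin (d j + 1))) with hM
  have hM2 : 2 ≤ M := by
    rw [hM, Fintype.card_option]
    have : 0 < Fintype.card (Σ j : Fin r, Fin (d j + 1)) :=
      Fintype.card_pos_iff.mpr ⟨⟨⟨0, hr⟩, 0⟩⟩
    omega
  set W : κ' → Finset (Option (Σ j : Fin r, Fin (d j + 1)) → ZMod p) := fun c =>
    zs d p (f c) \ (univ.filter (fun c' => c' ≠ c)).biUnion (fun c' => zs d p (f c')) with hW
  have hp0 : 0 < p := hp.pos
  have h1 : ∀ c, (zs d p (f c)).card = p ^ (M - 1) := by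
    intro c
    have h := zs_card (d := d) p (f c)
    rw [← hM] at h
    have h2 : p ^ M = p ^ (M - 1) * p := by
      rw [← pow_succ]
      congr 1
      omega
    rw [h2] at h
    exact Nat.eq_of_mul_eq_mul_right hp0 h
  have h2 : ∀ c c', c' ≠ c → (zs d p (f c) ∩ zs d p (f c')).card ≤ p ^ (M - 2) := by
    intro c c' hcc
    have h := zs_inter (d := d) p hp hd (f c) (f c') (fun h => hcc (hf h).symm) (hfp c) (hfp c')
    rw [← hM] at h
    have h3 : p ^ M = p ^ (M - 2) * p ^ 2 := by
      rw [← pow_add]
      congr 1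
      omega
    rw [h3] at h
    exact Nat.le_of_mul_le_mul_right h (by positivity)
  have h3 : ∀ c, p ^ (M - 1) - Fintype.card κ' * p ^ (M - 2) ≤ (W c).card := by
    intro c
    have e1 : (W c).card + (zs d p (f c) ∩
        (univ.filter (fun c' => c' ≠ c)).biUnion (fun c' => zs d p (f c'))).card =
        (zs d p (f c)).card := by
      rw [hW]
      exact Finset.card_sdiff_add_card_inter _ _
    have e2 : (zs d p (f c) ∩
        (univ.filter (fun c' => c' ≠ c)).biUnion (fun c' => zs d p (f c'))).card ≤
        Fintype.card κ' * p ^ (M - 2) := by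
      rw [Finset.inter_biUnion]
      refine Finset.card_biUnion_le.trans ?_
      refine (Finset.sum_le_sum fun c' hc' => h2 c c' (Finset.mem_filter.mp hc').2).trans ?_
      rw [Finset.sum_const, smul_eq_mul]
      exact Nat.mul_le_mul_right _ ((Finset.card_filter_le _ _).trans
        (by rw [Finset.card_univ]))
    rw [h1] at e1
    omega
  choose RS hRS1 hRS2 using fun c => Finset.exists_subset_card_eq (h3 c)
  refine ⟨RS, ?_, ?_, hRS2⟩
  · intro c w hw
    have h4 := hRS1 c hw
    rw [hW, Finset.mem_sdiff] at h4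
    exact (Finset.mem_filter.mp h4.1).2
  · intro c c' hcc
    rw [Finset.disjoint_left]
    intro w hw hw'
    have h4 := hRS1 c hw
    have h5 := hRS1 c' hw'
    rw [hW, Finset.mem_sdiff] at h4 h5
    apply h4.2
    rw [Finset.mem_biUnion]
    exact ⟨c', Finset.mem_filter.mpr ⟨Finset.mem_univ _, Ne.symm hcc⟩, h5.1⟩

end

end Pool.Agent.L5helper1.PS
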