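import Pool.Agent.Y961.JR.Abs
import Pool.Agent.TH915.PW.Crit
import Pool.Agent.L5helper1.PS.Cnt
import Pool.Agent.L5helper1.PS.Lin

set_option autoImplicit false
set_option maxHeartbeats 4000000

/-! # The criterion for the values of affine forms -/

namespace Pool.Agent.L5helper1.PS

open Finset Filter
open Pool.Agent.H256R2.SC (ff params survivors)
open Pool.Agent.TH915.PW (crt_small)
open Pool.Agent.Y961.JR (coverAbs)

open scoped Classical

section

variable {r : ℕ} {d : Fin r → ℕ}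

lemma vl_congr (p : ℕ) (w w' : Option (Σ j : Fin r, Fin (d j + 1)) → ℤ)
    (h : ∀ t, (p : ℤ) ∣ w t - w' t) (c : Option (Fin r)) (k : ℕ) :
    (p : ℤ) ∣ vl w c k - vl w' c k := by
  rw [← ZMod.intCast_zmod_eq_zero_iff_dvd, Int.cast_sub, ← vl_cast, ← vl_cast, sub_eq_zero]
  congr 1
  funext t
  have := h t
  rw [← ZMod.intCast_zmod_eq_zero_iff_dvd, Int.cast_sub, sub_eq_zero] at this
  exact this

/-- the vector for the small primes -/
def ρ0 (r0 : ℤ) : Option (Σ j : Fin r, Fin (d j + 1)) → ℤ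
  | none => r0
  | some x => if (x.2 : ℕ) = 0 then r0 else if (x.2 : ℕ) = 1 then 1 else 0

lemma vl_ρ0 (hd : ∀ j, 1 ≤ d j) (r0 : ℤ) (c : Option (Fin r)) (k : ℕ) :
    vl (ρ0 (d := d) r0) c k = r0 + k := by
  cases c with
  | none => simp [vl, ρ0]
  | some j =>
    have hdj := hd j
    have e1 : vl (ρ0 (d := d) r0) (some j) k =
        ∑ l : Fin (d j + 1), (fun l : ℕ => (if l = 0 then r0 else if l = 1 then 1 else 0) *
          ((k.choose l : ℕ) : ℤ)) l := rfl
    rw [e1, Fin.sum_univ_eq_sum_range (fun l : ℕ =>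
      (if l = 0 then r0 else if l = 1 then 1 else 0) * ((k.choose l : ℕ) : ℤ)) (d j + 1)]
    have e2 : range 2 ⊆ range (d j + 1) := range_subset_range.mpr (by omega)
    rw [← Finset.sum_subset e2 (by
      intro l _ hl
      rw [mem_range, not_lt] at hl
      rw [if_neg (by omega), if_neg (by omega), zero_mul])]
    simp [Finset.sum_range_succ]

lemma card_I_ge (hr : 1 ≤ r) :
    2 ≤ Fintype.card (Option (Σ j : Fin r, Fin (d j + 1))) := by
  rw [Fintype.card_option]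
  have : 0 < Fintype.card (Σ j : Fin r, Fin (d j + 1)) :=
    Fintype.card_pos_iff.mpr ⟨⟨⟨0, hr⟩, 0⟩⟩
  omega

lemma g_bounds (M K p : ℕ) (L : ℝ) (hM : 2 ≤ M) (hL : 1 ≤ L) (hp : L ^ 2 < p)
    (hK : (K : ℝ) ≤ L / 2) :
    1 / (p : ℝ) * (1 - 1 / (2 * L)) ≤ ((p ^ (M - 1) - K * p ^ (M - 2) : ℕ) : ℝ) / (p : ℝ) ^ M ∧
    ((p ^ (M - 1) - K * p ^ (M - 2) : ℕ) : ℝ) / (p : ℝ) ^ M ≤ 1 / (p : ℝ) := by
  have hL0 : 0 < L := by linarith
  have hp0 : (0 : ℝ) < p := lt_trans (by positivity) hp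
  have hKp : (K : ℝ) ≤ p := by nlinarith
  have hKp' : K ≤ p := by exact_mod_cast hKp
  obtain ⟨n, rfl⟩ : ∃ n, M = n + 2 := ⟨M - 2, by omega⟩
  have e1 : n + 2 - 1 = n + 1 := by omega
  have e2 : n + 2 - 2 = n := by omega
  rw [e1, e2]
  have h1 : K * p ^ n ≤ p ^ (n + 1) := by
    rw [pow_succ, mul_comm]
    exact Nat.mul_le_mul_left _ hKp'
  rw [Nat.cast_sub h1]
  push_cast
  have e3 : ((p : ℝ) ^ (n + 1) - K * (p : ℝ) ^ n) / (p : ℝ) ^ (n + 2) =
      1 / (p : ℝ) * (1 - K / p) := by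
    rw [pow_succ, pow_succ, pow_succ]
    field_simp
  rw [e3]
  constructor
  · apply mul_le_mul_of_nonneg_left _ (by positivity)
    have : (K : ℝ) / p ≤ 1 / (2 * L) := by
      calc (K : ℝ) / p ≤ (L / 2) / L ^ 2 := by
            apply div_le_div₀ (by positivity) hK (by positivity) hp.le
        _ = 1 / (2 * L) := by field_simp
    linarith
  · have : 0 ≤ (K : ℝ) / p := by positivity
    calc 1 / (p : ℝ) * (1 - K / p) ≤ 1 / (p : ℝ) * 1 := by
          apply mul_le_mul_of_nonneg_left _ (by positivity)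
          linarith
      _ = _ := mul_one _

/-- affine forms: the criterion -/
theorem critP (hr : 1 ≤ r) (hd : ∀ j, 1 ≤ d j) : ∃ κ : ℝ, 0 < κ ∧ ∃ X₀ : ℝ, ∀ X : ℝ, X₀ ≤ X →
    κ * ff X + 1 ≤ (Real.log X) ^ 2 ∧
    ∀ (ι : Type) (s : Finset ι) (v : ι → Option (Σ j : Fin r, Fin (d j + 1)) → ℤ), s.Nonempty →
    (∀ q : ℕ, 1 ≤ q → (q : ℝ) ≤ X ^ (2 / 5 : ℝ) →
      ∀ ρ : Option (Σ j : Fin r, Fin (d j + 1)) → ℤ,
      |((s.filter (fun i => ∀ j, (q : ℤ) ∣ v i j - ρ j)).card : ℝ) -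
        s.card / (q : ℝ) ^ Fintype.card (Option (Σ j : Fin r, Fin (d j + 1)))| ≤
        s.card * X ^ (-(2 * (Fintype.card (Option (Σ j : Fin r, Fin (d j + 1))) : ℝ)))) →
    ∃ i ∈ s, ∀ c : Option (Fin r), ∀ k : ℕ, 1 ≤ k → (k : ℝ) ≤ κ * ff X →
      ∃ p : ℕ, p.Prime ∧ (p : ℝ) ≤ X ^ (1 / 10 : ℝ) ∧ (p : ℤ) ∣ vl (v i) c k := by
  obtain ⟨c₀, hc₀, X₁, hcov⟩ := coverAbs
  have hM2 : 2 ≤ Fintype.card (Option (Σ j : Fin r, Fin (d j + 1))) := card_I_ge hr
  set M := Fintype.card (Option (Σ j : Fin r, Fin (d j + 1))) with hM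
  set c₁ : ℝ := min c₀ (1 / 2) with hc₁'
  have hc₁ : 0 < c₁ := lt_min hc₀ (by norm_num)
  have hc₁0 : c₁ ≤ c₀ := min_le_left _ _
  have hc₁2 : c₁ ≤ 1 / 2 := min_le_right _ _
  have hr0 : (0 : ℝ) < (r : ℝ) + 1 := by positivity
  have hM1 : (2 : ℝ) ≤ M := by exact_mod_cast hM2
  obtain ⟨c, hc, X₂, hpar⟩ := params survivors (c₁ / ((r : ℝ) + 1)) (by positivity)
  have hlogx : ∀ᶠ X : ℝ in atTop, Real.log X / 10 ≤ X ^ (1 / 10 : ℝ) := by
    have h := (isLittleO_log_rpow_atTop (show (0 : ℝ) < 1 / 10 by norm_num)).def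
      (show (0 : ℝ) < 1 by norm_num)
    filter_upwards [h, eventually_ge_atTop (1 : ℝ)] with X hX hX1
    rw [Real.norm_eq_abs, abs_of_nonneg (Real.log_nonneg hX1), Real.norm_eq_abs,
      abs_of_nonneg (Real.rpow_nonneg (by linarith) _)] at hX
    have := Real.log_nonneg hX1
    linarith
  obtain ⟨X₃, hX₃⟩ := eventually_atTop.mp hlogx
  have hL16 : ∀ᶠ X : ℝ in atTop, 160 ≤ Real.log X := Real.tendsto_log_atTop.eventually_ge_atTop _
  obtain ⟨X₄, hX₄⟩ := eventually_atTop.mp hL16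
  refine ⟨c / 4, by positivity, max (max X₁ X₂) (max X₃ (max X₄ 1)), ?_⟩
  intro X hX
  have hXX1 : X₁ ≤ X := ((le_max_left _ _).trans (le_max_left _ _)).trans hX
  have hXX2 : X₂ ≤ X := ((le_max_right _ _).trans (le_max_left _ _)).trans hX
  have hXX3 : X₃ ≤ X := ((le_max_left _ _).trans (le_max_right _ _)).trans hX
  have hXX4 : X₄ ≤ X := (((le_max_left _ _).trans (le_max_right _ _)).trans
    (le_max_right _ _)).trans hX
  have hX1 : 1 ≤ X := (((le_max_right _ _).trans (le_max_right _ _)).trans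
    (le_max_right _ _)).trans hX
  have hX0 : 0 < X := by linarith
  obtain ⟨hX1000, hLlog, hLge, hprim, b, hb1, hb2⟩ := hpar X hXX2
  have h3 := hX₃ X hXX3
  have h4 := hX₄ X hXX4
  set l : ℝ := Real.log X with hl
  have hl1 : 1 ≤ l := by linarith
  set L : ℕ := ⌊c * ff X⌋₊ with hL
  set Ny : ℕ := ⌊l / 10⌋₊ with hNy
  set P : ℕ := primorial Ny with hP
  set S : Finset ℕ := (Finset.range (Ny + 1)).filter Nat.Prime with hS
  have hPS : P = ∏ p ∈ S, p := rfl
  have hSp : ∀ p ∈ S, p.Prime := fun p hp => (Finset.mem_filter.mp hp).2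
  have hSle : ∀ p ∈ S, (p : ℝ) ≤ l / 10 := by
    intro p hp
    have h5 := Finset.mem_range.mp (Finset.mem_filter.mp hp).1
    have h6 : (p : ℝ) ≤ Ny := by exact_mod_cast Nat.lt_succ_iff.mp h5
    exact h6.trans (Nat.floor_le (by linarith))
  have hSmem : ∀ p : ℕ, p.Prime → (p : ℝ) ≤ l / 10 → p ∈ S := by
    intro p hp hpl
    rw [hS, Finset.mem_filter, Finset.mem_range]
    exact ⟨Nat.lt_succ_of_le (Nat.le_floor hpl), hp⟩
  have hPpos : 0 < P := primorial_pos _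
  have hPr : (0 : ℝ) < P := by exact_mod_cast hPpos
  have hff : c * ff X < L + 1 := Nat.lt_floor_add_one _
  refine ⟨by nlinarith, ?_⟩
  intro ι s v hs hcount
  obtain ⟨r0, hr0'⟩ := crt_small S hSp (fun p => b p)
  -- the candidates
  set 𝒜 : Finset ι := s.filter (fun i => ∀ j, (P : ℤ) ∣ v i j - ρ0 (r0 : ℤ) j) with h𝒜
  set U : Finset ℕ := (Finset.Icc 1 L).filter (fun k => ∀ p : ℕ, p.Prime →
          (p : ℝ) ≤ l / 10 → ¬ k ≡ b p [MOD p]) with hU
  have hcardU : (Fintype.card {k // k ∈ U} : ℝ) ≤ c₁ / ((r : ℝ) + 1) * l := by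
    rw [Fintype.card_coe]
    exact hb2
  have hcardκ : (Fintype.card (Option (Fin r) × {k // k ∈ U}) : ℝ) =
      ((r : ℝ) + 1) * Fintype.card {k // k ∈ U} := by
    rw [Fintype.card_prod, Fintype.card_option, Fintype.card_fin]
    push_cast
    ring
  have hcard1 : (Fintype.card (Option (Fin r) × {k // k ∈ U}) : ℝ) ≤ c₁ * l := by
    rw [hcardκ]
    calc ((r : ℝ) + 1) * (Fintype.card {k // k ∈ U} : ℝ) ≤
        ((r : ℝ) + 1) * (c₁ / ((r : ℝ) + 1) * l) := by gcongr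
      _ = c₁ * l := by field_simp
  have hcard : (Fintype.card (Option (Fin r) × {k // k ∈ U}) : ℝ) ≤ c₀ * l :=
    hcard1.trans (by gcongr)
  have hcard2 : (Fintype.card (Option (Fin r) × {k // k ∈ U}) : ℝ) ≤ l / 2 :=
    hcard1.trans (by nlinarith)
  set K := Fintype.card (Option (Fin r) × {k // k ∈ U}) with hK
  -- the sets of residue vectors
  set f : Option (Fin r) × {k // k ∈ U} → Option (Fin r) × ℕ := fun x => (x.1, x.2.1) with hf
  have hfinj : Function.Injective f := by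
    rintro ⟨a, b⟩ ⟨a', b'⟩ h
    simp only [hf, Prod.mk.injEq] at h
    exact Prod.ext h.1 (Subtype.ext h.2)
  have hUL : ∀ x : Option (Fin r) × {k // k ∈ U}, (f x).2 ≤ L := fun x =>
    (Finset.mem_Icc.mp (Finset.mem_filter.mp x.2.2).1).2
  have hexR : ∀ p : ℕ, ∃ RS : Option (Fin r) × {k // k ∈ U} →
      Finset (Option (Σ j : Fin r, Fin (d j + 1)) → ZMod p), p.Prime → l ^ 2 < p →
      (∀ c, ∀ w ∈ RS c, vl w (f c).1 (f c).2 = 0) ∧
      (∀ c c', c ≠ c' → Disjoint (RS c) (RS c')) ∧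
      ∀ c, (RS c).card = p ^ (M - 1) - K * p ^ (M - 2) := by
    intro p
    by_cases hp : p.Prime ∧ l ^ 2 < p
    · obtain ⟨RS, hRS⟩ := exists_RS hr hd p hp.1 f hfinj (fun x => by
        have h5 : (L : ℝ) < p := by linarith [hp.2]
        have h6 : L < p := by exact_mod_cast h5
        exact lt_of_le_of_lt (hUL x) h6)
      exact ⟨RS, fun _ _ => hRS⟩
    · exact ⟨fun _ => ∅, fun h1 h2 => absurd ⟨h1, h2⟩ hp⟩
  choose RS hRS using hexR
  have hscard : (0 : ℝ) < s.card := by exact_mod_cast hs.card_pos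
  have hNpos : (0 : ℝ) < s.card / (P : ℝ) ^ M := by positivity
  have hXr0 : 0 < X ^ (-(2 * (M : ℝ))) := Real.rpow_pos_of_pos hX0 _
  -- equidistribution of the candidates
  have hcountA : ∀ q : ℕ, Squarefree q → (q : ℝ) ≤ X ^ (1 / 4 : ℝ) →
      (∀ p ∈ q.primeFactors, l ^ 2 < p) → ∀ ρ : Option (Σ j : Fin r, Fin (d j + 1)) → ℤ,
      |((𝒜.filter (fun x => ∀ j, (q : ℤ) ∣ v x j - ρ j)).card : ℝ) -
        (s.card / (P : ℝ) ^ M) / (q : ℝ) ^ M| ≤ s.card * X ^ (-(2 * (M : ℝ))) := by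
    intro q hq hqX hqp ρ
    have hcop : Nat.Coprime P q := by
      rw [Nat.coprime_comm, hPS]
      apply Nat.Coprime.prod_right
      intro p hp
      rw [Nat.coprime_comm, Nat.Prime.coprime_iff_not_dvd (hSp p hp)]
      intro hd
      have h5 : p ∈ q.primeFactors := Nat.mem_primeFactors.mpr ⟨hSp p hp, hd, hq.ne_zero⟩
      have h6 := hqp p h5
      have h7 := hSle p hp
      have h8 : l ≤ l ^ 2 := by nlinarith
      linarith
    have hq1 : 1 ≤ q := Nat.one_le_iff_ne_zero.mpr hq.ne_zero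
    obtain ⟨u, w, huw⟩ := Nat.isCoprime_iff_coprime.2 hcop
    set r' : Option (Σ j : Fin r, Fin (d j + 1)) → ℤ := fun j =>
      ρ0 (d := d) (r0 : ℤ) j * (w * q) + ρ j * (u * P) with hr'
    have hiff : ∀ (j : Option (Σ j : Fin r, Fin (d j + 1))) (x : ℤ),
        ((P : ℤ) ∣ x - ρ0 (d := d) (r0 : ℤ) j ∧ (q : ℤ) ∣ x - ρ j) ↔
        ((P * q : ℕ) : ℤ) ∣ x - r' j := by
      intro j x
      set z : ℤ := ρ0 (d := d) (r0 : ℤ) j with hz
      have e1 : z - r' j = (z - ρ j) * u * P := by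
        simp only [hr', ← hz]
        linear_combination (-z) * huw
      have e2 : ρ j - r' j = (ρ j - z) * w * q := by
        simp only [hr', ← hz]
        linear_combination (-(ρ j : ℤ)) * huw
      constructor
      · rintro ⟨h5, h6⟩
        have h7 : (P : ℤ) ∣ x - r' j := by
          have : x - r' j = (x - z) + (z - ρ j) * u * P := by rw [← e1]; ring
          rw [this]
          exact dvd_add h5 (Dvd.intro_left _ rfl)
        have h8 : (q : ℤ) ∣ x - r' j := by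
          have : x - r' j = (x - ρ j) + (ρ j - z) * w * q := by rw [← e2]; ring
          rw [this]
          exact dvd_add h6 (Dvd.intro_left _ rfl)
        push_cast
        exact IsCoprime.mul_dvd (Nat.isCoprime_iff_coprime.2 hcop) h7 h8
      · intro h5
        push_cast at h5
        constructor
        · have h6 : (P : ℤ) ∣ x - r' j := (dvd_mul_right _ _).trans h5
          have : x - z = (x - r' j) - (z - ρ j) * u * P := by rw [← e1]; ring
          rw [this]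
          exact dvd_sub h6 (Dvd.intro_left _ rfl)
        · have h6 : (q : ℤ) ∣ x - r' j := (dvd_mul_left _ _).trans h5
          have : x - ρ j = (x - r' j) - (ρ j - z) * w * q := by rw [← e2]; ring
          rw [this]
          exact dvd_sub h6 (Dvd.intro_left _ rfl)
    have h5 : 𝒜.filter (fun x => ∀ j, (q : ℤ) ∣ v x j - ρ j) =
        s.filter (fun x => ∀ j, ((P * q : ℕ) : ℤ) ∣ v x j - r' j) := by
      rw [h𝒜, Finset.filter_filter]
      apply Finset.filter_congr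
      intro x _
      constructor
      · rintro ⟨a1, a2⟩ j
        exact (hiff j (v x j)).mp ⟨a1 j, a2 j⟩
      · intro a1
        exact ⟨fun j => ((hiff j (v x j)).mpr (a1 j)).1, fun j => ((hiff j (v x j)).mpr (a1 j)).2⟩
    rw [h5]
    have h6 : (s.card : ℝ) / (P : ℝ) ^ M / (q : ℝ) ^ M = s.card / ((P * q : ℕ) : ℝ) ^ M := by
      push_cast
      rw [div_div, mul_pow]
    rw [h6]
    apply hcount (P * q) (Nat.mul_pos hPpos hq1)
    push_cast
    calc (P : ℝ) * q ≤ X ^ (3 / 20 : ℝ) * X ^ (1 / 4 : ℝ) := by gcongr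
      _ = X ^ (3 / 20 + 1 / 4 : ℝ) := by rw [Real.rpow_add hX0]
      _ = _ := by norm_num
  set Err₀ : ℝ := s.card * X ^ (-(2 * (M : ℝ))) with hErr₀
  have hErr₀0 : 0 ≤ Err₀ := by positivity
  set Err : ℝ := Err₀ * (X ^ (1 / 4 : ℝ)) ^ (M - 1) with hErr
  have hErr0 : 0 ≤ Err := by positivity
  obtain ⟨i, hi, hcovi⟩ := hcov X hXX1 (Option (Fin r) × {k // k ∈ U}) hcard
    (fun p => ((p ^ (M - 1) - K * p ^ (M - 2) : ℕ) : ℝ) / (p : ℝ) ^ M)
    (fun p _ hpl _ => g_bounds M K p l hM2 hl1 hpl hcard2) ι 𝒜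
    (fun x p => colR RS (v x) p) (s.card / (P : ℝ) ^ M) Err hNpos hErr0 (by
      have h5 : (P : ℝ) ^ M ≤ X ^ ((3 / 20 : ℝ) * M) := by
        rw [Real.rpow_mul hX0.le, Real.rpow_natCast]
        exact pow_le_pow_left₀ hPr.le hprim M
      have h6 : (X ^ (1 / 4 : ℝ)) ^ (M - 1) ≤ X ^ ((1 / 4 : ℝ) * M) := by
        rw [Real.rpow_mul hX0.le, Real.rpow_natCast]
        exact pow_le_pow_right₀ (Real.one_le_rpow hX1 (by norm_num)) (Nat.sub_le M 1)
      rw [hErr, hErr₀, div_mul_eq_mul_div, le_div_iff₀ (by positivity)]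
      calc (s.card : ℝ) * X ^ (-(2 * (M : ℝ))) * (X ^ (1 / 4 : ℝ)) ^ (M - 1) * (P : ℝ) ^ M
          ≤ (s.card : ℝ) * X ^ (-(2 * (M : ℝ))) * X ^ ((1 / 4 : ℝ) * M) * X ^ ((3 / 20 : ℝ) * M) := by
            gcongr
        _ = (s.card : ℝ) * X ^ (-(2 * (M : ℝ)) + (1 / 4 : ℝ) * M + (3 / 20 : ℝ) * M) := by
            rw [Real.rpow_add hX0, Real.rpow_add hX0]; ring
        _ ≤ (s.card : ℝ) * X ^ (-(2 / 5) : ℝ) := by
            apply mul_le_mul_of_nonneg_left _ hscard.le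
            apply Real.rpow_le_rpow_of_exponent_le hX1
            nlinarith) (by
      intro S' hS' hS'Q D hD
      have h5 := countR 𝒜 v RS (fun p => p ^ (M - 1) - K * p ^ (M - 2))
        (s.card / (P : ℝ) ^ M) Err₀ (X ^ (1 / 4 : ℝ)) (l ^ 2)
        hcountA S' ∅ (fun p hp => ⟨(hS' p hp).1, (hS' p hp).2.1⟩)
        (fun p hp => (hRS p (hS' p hp).1 (hS' p hp).2.1).2.1)
        (fun p hp => (hRS p (hS' p hp).1 (hS' p hp).2.1).2.2)
        (by simp) (Finset.disjoint_empty_right _)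
        (by simpa using hS'Q) D hD (fun _ _ => 0)
      refine le_trans (le_of_eq ?_) (h5.trans ?_)
      · rw [Finset.prod_empty, mul_one]
        congr 4
        ext x
        simp only [Finset.mem_filter, Finset.notMem_empty, false_implies, implies_true, and_true]
      rw [hErr]
      apply mul_le_mul_of_nonneg_left _ hErr₀0
      calc ∏ p ∈ S', ((p ^ (M - 1) - K * p ^ (M - 2) : ℕ) : ℝ) ≤ ∏ p ∈ S', (p : ℝ) ^ (M - 1) := by
            apply Finset.prod_le_prod (fun _ _ => Nat.cast_nonneg _)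
            intro p _
            have : p ^ (M - 1) - K * p ^ (M - 2) ≤ p ^ (M - 1) := Nat.sub_le _ _
            exact_mod_cast this
        _ ≤ _ := by
            rw [Finset.prod_pow]
            exact pow_le_pow_left₀ (Finset.prod_nonneg fun _ _ => Nat.cast_nonneg _) hS'Q _)
  rw [h𝒜, Finset.mem_filter] at hi
  refine ⟨i, hi.1, ?_⟩
  intro c' k hk1 hk2
  have hkIcc : k ∈ Finset.Icc 1 L := by
    rw [Finset.mem_Icc]
    refine ⟨hk1, ?_⟩
    have h5 : (k : ℝ) < L + 1 := by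
      have : (0 : ℝ) ≤ k := Nat.cast_nonneg k
      nlinarith
    have : k < L + 1 := by exact_mod_cast h5
    omega
  by_cases hkU : k ∈ U
  · obtain ⟨p, hp, hpl, hpX, hd'⟩ := hcovi (c', ⟨k, hkU⟩)
    refine ⟨p, hp, hpX, ?_⟩
    obtain ⟨g1, g2, g3⟩ := hRS p hp hpl
    have h5 := (colR_eq g2).mp hd'
    have h6 := g1 _ _ h5
    simp only [hf] at h6
    rw [vl_cast, ZMod.intCast_zmod_eq_zero_iff_dvd] at h6
    exact h6
  · have h5 : ∃ p : ℕ, p.Prime ∧ (p : ℝ) ≤ l / 10 ∧ k ≡ b p [MOD p] := by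
      by_contra hcon
      push Not at hcon
      exact hkU (Finset.mem_filter.mpr ⟨hkIcc, hcon⟩)
    obtain ⟨p, hp, hpl, hkb⟩ := h5
    refine ⟨p, hp, hpl.trans h3, ?_⟩
    have hpS := hSmem p hp hpl
    have h6 : (p : ℤ) ∣ (r0 : ℤ) + (b p : ℤ) := by
      have h7 := Int.natCast_dvd_natCast.mpr (hr0' p hpS)
      push_cast at h7
      exact h7
    have h7 : (p : ℤ) ∣ vl (v i) c' k - vl (ρ0 (d := d) (r0 : ℤ)) c' k := by
      apply vl_congr
      intro t
      refine dvd_trans ?_ (hi.2 t)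
      rw [hPS]
      exact Int.natCast_dvd_natCast.mpr (Finset.dvd_prod_of_mem _ hpS)
    rw [vl_ρ0 hd] at h7
    have h8 : (p : ℤ) ∣ (k : ℤ) - b p := by
      have := (Nat.modEq_iff_dvd.mp hkb)
      rw [← neg_sub]
      exact (dvd_neg).mpr this
    have h9 : vl (v i) c' k = (vl (v i) c' k - ((r0 : ℤ) + k)) + ((r0 : ℤ) + (b p : ℤ)) +
        ((k : ℤ) - b p) := by ring
    rw [h9]
    exact dvd_add (dvd_add h7 h6) h8

end

end Pool.Agent.L5helper1.PS
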