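import Pool.Agent.Y961.JR.Disc
import Pool.Agent.W147.PS.Scale
import Pool.Agent.L5helper1.PS.Crit

set_option autoImplicit false
set_option maxHeartbeats 4000000

/-! # The criterion in terms of exponential sums, with conditions on the fractional parts -/

namespace Pool.Agent.L5helper1.PS

open Finset Filter
open Pool.Agent.H469R2.NK (e norm_e e_add)
open Pool.Agent.H256R2.SC (ff)
open Pool.Agent.Y961.JR (discJ)
open Pool.Agent.W147.PS (ev_pow)

open scoped Classical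

/-- the number of points in a residue class -/
theorem discT {ι : Type*} {T : Type} [Fintype T] (hT : 1 ≤ Fintype.card T) (s : Finset ι)
    (x : ι → T → ℝ) (K q : ℕ)
    (hK : 1 ≤ K) (hq : 1 ≤ q) (hKq : 3 * q ≤ K) (E : ℝ) (hE0 : 0 ≤ E)
    (hE : ∀ h : T → ℤ, h ≠ 0 → (∀ j, (h j).natAbs < K ^ 3) →
      ‖∑ i ∈ s, e (∑ j, (h j : ℝ) * (x i j / q))‖ ≤ E) (ρ : T → ℤ) :
    |((s.filter (fun i => ∀ j, (q : ℤ) ∣ ⌊x i j⌋ - ρ j)).card : ℝ) -
      s.card / (q : ℝ) ^ Fintype.card T| ≤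
      (q : ℝ) ^ Fintype.card T * ((3 * (Fintype.card T : ℝ) + 4) * s.card / K +
        (K : ℝ) ^ (3 * Fintype.card T) * E) := by
  set eq := Fintype.equivFin T with heq
  have h1 := discJ hT s (fun i j => x i (eq.symm j)) K q hK hq hKq E hE0 (by
    intro h hh hh2
    have h2 := hE (fun t => h (eq t)) (by
      intro h3
      apply hh
      funext j
      have := congrFun h3 (eq.symm j)
      simpa using this) (fun t => hh2 _)
    refine le_trans (le_of_eq ?_) h2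
    congr 1
    refine sum_congr rfl fun i _ => ?_
    congr 1
    rw [← Equiv.sum_comp eq (fun j => (h j : ℝ) * (x i (eq.symm j) / q))]
    simp only [Equiv.symm_apply_apply]) (fun j => ρ (eq.symm j))
  have h2 : (s.filter (fun i => ∀ j, (q : ℤ) ∣ ⌊x i j⌋ - ρ j)) =
      s.filter (fun i => ∀ j, (q : ℤ) ∣ ⌊x i (eq.symm j)⌋ - ρ (eq.symm j)) := by
    apply Finset.filter_congr
    intro i _
    constructor
    · intro h j
      exact h _
    · intro h t
      have := h (eq t)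
      simpa using this
  rw [h2]
  exact h1

lemma frac_iff (E q : ℕ) (hE : 1 ≤ E) (y : ℝ) (ρ a : ℤ) (ha0 : 0 ≤ a) (ha : a < E) :
    (((a : ℝ) / E ≤ Int.fract y ∧ Int.fract y < ((a : ℝ) + 1) / E) ∧ (q : ℤ) ∣ ⌊y⌋ - ρ) ↔
      ((E * q : ℕ) : ℤ) ∣ ⌊(E : ℝ) * y⌋ - ((E : ℤ) * ρ + a) := by
  have hE0 : (0 : ℝ) < E := by exact_mod_cast hE
  have hEi : (0 : ℤ) < E := by exact_mod_cast hE
  set f : ℤ := ⌊(E : ℝ) * Int.fract y⌋ with hf
  have h1 : ⌊(E : ℝ) * y⌋ = E * ⌊y⌋ + f := by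
    have h2 : (E : ℝ) * y = ((E * ⌊y⌋ : ℤ) : ℝ) + E * Int.fract y := by
      push_cast
      rw [← mul_add, Int.floor_add_fract]
    rw [h2, Int.floor_intCast_add]
  have hf0 : 0 ≤ f := Int.floor_nonneg.mpr (mul_nonneg hE0.le (Int.fract_nonneg y))
  have hf1 : f < E := by
    rw [hf, Int.floor_lt]
    have := Int.fract_lt_one y
    have h3 : (E : ℝ) * Int.fract y < E * 1 := by gcongr
    push_cast
    linarith
  have h2 : ((a : ℝ) / E ≤ Int.fract y ∧ Int.fract y < ((a : ℝ) + 1) / E) ↔ f = a := by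
    rw [div_le_iff₀ hE0, lt_div_iff₀ hE0, mul_comm (Int.fract y) (E : ℝ), hf, Int.floor_eq_iff]
  rw [h2, h1]
  push_cast
  constructor
  · rintro ⟨h3, h4⟩
    rw [h3]
    have : (E : ℤ) * ⌊y⌋ + a - (E * ρ + a) = E * (⌊y⌋ - ρ) := by ring
    rw [this]
    exact mul_dvd_mul_left _ h4
  · intro h3
    have h4 : (E : ℤ) ∣ f - a := by
      have h5 : (E : ℤ) ∣ E * ⌊y⌋ + f - (E * ρ + a) := (dvd_mul_right _ _).trans h3
      have h6 : f - a = (E * ⌊y⌋ + f - (E * ρ + a)) - E * (⌊y⌋ - ρ) := by ring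
      rw [h6]
      exact dvd_sub h5 (dvd_mul_right _ _)
    have h5 : f = a := by
      obtain ⟨k, hk⟩ := h4
      have h6 : k = 0 := by
        by_contra hne
        rcases lt_or_gt_of_ne hne with h7 | h7
        · nlinarith
        · nlinarith
      rw [h6, mul_zero] at hk
      linarith
    refine ⟨h5, ?_⟩
    rw [h5] at h3
    have : (E : ℤ) * ⌊y⌋ + a - (E * ρ + a) = E * (⌊y⌋ - ρ) := by ring
    rw [this] at h3
    exact (mul_dvd_mul_iff_left hEi.ne').mp h3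

section

variable {r : ℕ} {d : Fin r → ℕ}

/-- the vector with the coordinates `u` and `w` -/
def cmb {T : Type} (u : ℤ) (w : T → ℤ) : Option T → ℤ
  | none => u
  | some t => w t

theorem critE (hr : 1 ≤ r) (hd : ∀ j, 1 ≤ d j) : ∃ κ : ℝ, 0 < κ ∧ ∃ B : ℕ, 1 ≤ B ∧
    ∀ᶠ X : ℝ in atTop,
    ∀ (E : ℕ) (a : (Σ j : Fin r, Fin (d j + 1)) → ℤ), 1 ≤ E → (E : ℝ) ≤ X ^ (1 / 10 : ℝ) →
    (∀ t, 0 ≤ a t ∧ a t < E) →
    ∀ (ι : Type) (s : Finset ι) (u : ι → ℤ) (y : ι → (Σ j : Fin r, Fin (d j + 1)) → ℝ),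
    s.Nonempty →
    (∀ q : ℕ, 1 ≤ q → (q : ℝ) ≤ X ^ B → ∀ b : ℤ,
      |((s.filter (fun i => (q : ℤ) ∣ u i - b)).card : ℝ) - s.card / q| ≤
        s.card * X ^ (-(B : ℝ)) ∧
      ∀ h : (Σ j : Fin r, Fin (d j + 1)) → ℤ, h ≠ 0 → (∀ j, |(h j : ℝ)| ≤ X ^ B) →
      ‖∑ i ∈ s.filter (fun i => (q : ℤ) ∣ u i - b), e (∑ j, (h j : ℝ) * (y i j / q))‖ ≤
        s.card * X ^ (-(B : ℝ))) →
    ∃ i ∈ s, (∀ t, (a t : ℝ) / E ≤ Int.fract (y i t) ∧ Int.fract (y i t) < ((a t : ℝ) + 1) / E) ∧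
      ∀ c : Option (Fin r), ∀ k : ℕ, 1 ≤ k → (k : ℝ) ≤ κ * ff X →
      ∃ p : ℕ, p.Prime ∧ (p : ℝ) ≤ X ^ (1 / 10 : ℝ) ∧
        (p : ℤ) ∣ vl (cmb (u i) (fun t => ⌊y i t⌋)) c k := by
  obtain ⟨κ, hκ, X₀, hcr⟩ := critP (d := d) hr hd
  set τ := Fintype.card (Σ j : Fin r, Fin (d j + 1)) with hτ
  have hτ1 : 1 ≤ τ := Fintype.card_pos_iff.mpr ⟨⟨⟨0, hr⟩, 0⟩⟩
  have hMτ : Fintype.card (Option (Σ j : Fin r, Fin (d j + 1))) = τ + 1 := Fintype.card_option
  rw [hMτ] at hcr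
  obtain ⟨M, hM⟩ : ∃ M : ℕ, M = τ + 1 := ⟨_, rfl⟩
  rw [← hM] at hcr
  have hM2 : 2 ≤ M := by omega
  have hM2r : (2 : ℝ) ≤ M := by exact_mod_cast hM2
  have hτM : (τ : ℝ) ≤ M := by exact_mod_cast (by omega : τ ≤ M)
  refine ⟨κ, hκ, 20 * M ^ 2, by nlinarith, ?_⟩
  filter_upwards [eventually_ge_atTop X₀, eventually_ge_atTop (2 : ℝ),
    ev_pow (1 / 2) (5 * M) 3 (by nlinarith), ev_pow (15 * M) (16 * M) 8 (by linarith),
    ev_pow (-(5 * M) + M / 2) (-(4 * M)) (3 * M + 5) (by linarith),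
    ev_pow (-M) (-(M / 10)) 3 (by linarith),
    ev_pow (-(3 * M)) (-(2 * M)) 4 (by linarith)] with X hX0 hX2 p1 p2 p3 p4 p5
  intro E a hE hEX ha ι s u y hs hyp
  have hX1 : 1 ≤ X := by linarith
  have hXpos : 0 < X := by linarith
  have hmono : ∀ x y : ℝ, x ≤ y → X ^ x ≤ X ^ y := fun x y h =>
    Real.rpow_le_rpow_of_exponent_le hX1 h
  have hE0 : (0 : ℝ) < E := by exact_mod_cast hE
  have hE1 : (1 : ℝ) ≤ E := by exact_mod_cast hE
  have hspos : (0 : ℝ) < s.card := by exact_mod_cast hs.card_pos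
  have hB : (((20 * M ^ 2 : ℕ)) : ℝ) = 20 * (M : ℝ) ^ 2 := by push_cast; rfl
  rw [hB] at hyp
  have hMM : 2 * (M : ℝ) ≤ (M : ℝ) ^ 2 := by nlinarith
  have hBX : ∀ x : ℝ, x ≤ 20 * (M : ℝ) ^ 2 → X ^ x ≤ X ^ (20 * M ^ 2 : ℕ) := by
    intro x hx
    rw [← Real.rpow_natCast, hB]
    exact hmono _ _ hx
  set K : ℕ := ⌈X ^ (5 * (M : ℝ))⌉₊ with hK
  have hKlow : X ^ (5 * (M : ℝ)) ≤ K := Nat.le_ceil _
  have hXM1 : 1 ≤ X ^ (5 * (M : ℝ)) := Real.one_le_rpow hX1 (by positivity)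
  have hKup : (K : ℝ) ≤ 2 * X ^ (5 * (M : ℝ)) := by
    have := Nat.ceil_lt_add_one (show 0 ≤ X ^ (5 * (M : ℝ)) by positivity)
    rw [← hK] at this
    linarith
  have hKup2 : (K : ℝ) ≤ X ^ (5 * (M : ℝ) + 1) := by
    rw [Real.rpow_add hXpos, Real.rpow_one]
    nlinarith
  have hK1 : 1 ≤ K := by
    have : (1 : ℝ) ≤ K := hXM1.trans hKlow
    exact_mod_cast this
  have hK0 : (0 : ℝ) < K := by exact_mod_cast hK1
  set s' : Finset ι := s.filter (fun i => ∀ t, (a t : ℝ) / E ≤ Int.fract (y i t) ∧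
    Int.fract (y i t) < ((a t : ℝ) + 1) / E) with hs'
  set w : ι → Option (Σ j : Fin r, Fin (d j + 1)) → ℤ := fun i => cmb (u i) (fun t => ⌊y i t⌋)
    with hw
  set δ : ℝ := s.card * X ^ (-(4 * (M : ℝ))) with hδ
  have hδ0 : 0 < δ := by positivity
  -- the main estimate
  have hmain : ∀ q : ℕ, 1 ≤ q → (q : ℝ) ≤ X ^ (2 / 5 : ℝ) →
      ∀ ρ : Option (Σ j : Fin r, Fin (d j + 1)) → ℤ,
      |((s'.filter (fun i => ∀ j, (q : ℤ) ∣ w i j - ρ j)).card : ℝ) -
        s.card / ((E : ℝ) ^ τ * (q : ℝ) ^ M)| ≤ 2 * δ := by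
    intro q hq hqX ρ
    have hq0 : (0 : ℝ) < q := by exact_mod_cast hq
    have hq1 : (1 : ℝ) ≤ q := by exact_mod_cast hq
    obtain ⟨g1, g2⟩ := hyp q hq (hqX.trans (hBX _ (by nlinarith))) (ρ none)
    set sb := s.filter (fun i => (q : ℤ) ∣ u i - ρ none) with hsb
    have hEq : (E : ℝ) * q ≤ X ^ (1 / 2 : ℝ) := by
      calc (E : ℝ) * q ≤ X ^ (1 / 10 : ℝ) * X ^ (2 / 5 : ℝ) := by gcongr
        _ = X ^ (1 / 10 + 2 / 5 : ℝ) := by rw [Real.rpow_add hXpos]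
        _ = _ := by norm_num
    have hKq : 3 * (E * q) ≤ K := by
      have : (3 : ℝ) * (E * q) ≤ K := by
        calc (3 : ℝ) * (E * q) ≤ 3 * X ^ (1 / 2 : ℝ) := by gcongr
          _ ≤ X ^ (5 * (M : ℝ)) := p1
          _ ≤ K := hKlow
      exact_mod_cast this
    have hd1 := discT (T := Σ j : Fin r, Fin (d j + 1)) hτ1 sb (fun i t => (E : ℝ) * y i t) K
      (E * q) hK1 (Nat.mul_pos hE hq) hKq (s.card * X ^ (-(20 * (M : ℝ) ^ 2))) (by positivity)
      (by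
        intro h hh hh2
        have h3 := g2 h hh (by
          intro t
          have h5 : ((h t).natAbs : ℝ) < (K : ℝ) ^ 3 := by exact_mod_cast hh2 t
          have h6 : |(h t : ℝ)| = ((h t).natAbs : ℝ) := by
            rw [Nat.cast_natAbs]; push_cast; rfl
          rw [h6]
          have h7 : (K : ℝ) ^ 3 ≤ 8 * X ^ (15 * (M : ℝ)) := by
            calc (K : ℝ) ^ 3 ≤ (2 * X ^ (5 * (M : ℝ))) ^ 3 := by gcongr
              _ = 8 * (X ^ (5 * (M : ℝ))) ^ 3 := by ring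
              _ = 8 * X ^ (15 * (M : ℝ)) := by
                rw [← Real.rpow_natCast, ← Real.rpow_mul hXpos.le]
                congr 2
                push_cast
                ring
          exact h5.le.trans (h7.trans (p2.trans (hBX _ (by nlinarith)))))
        refine le_trans (le_of_eq ?_) h3
        congr 1
        refine sum_congr rfl fun i _ => ?_
        congr 1
        refine sum_congr rfl fun t _ => ?_
        congr 1
        push_cast
        rw [mul_div_mul_left _ _ hE0.ne']) (fun t => (E : ℤ) * ρ (some t) + a t)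
    have hset : s'.filter (fun i => ∀ j, (q : ℤ) ∣ w i j - ρ j) =
        sb.filter (fun i => ∀ t, ((E * q : ℕ) : ℤ) ∣ ⌊(E : ℝ) * y i t⌋ -
          ((E : ℤ) * ρ (some t) + a t)) := by
      rw [hs', hsb, Finset.filter_filter, Finset.filter_filter]
      apply Finset.filter_congr
      intro i _
      have h1 : ∀ t, _ := fun t => frac_iff E q hE (y i t) (ρ (some t)) (a t) (ha t).1 (ha t).2
      constructor
      · rintro ⟨h2, h3⟩
        refine ⟨h3 none, fun t => (h1 t).mp ⟨h2 t, h3 (some t)⟩⟩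
      · rintro ⟨h2, h3⟩
        refine ⟨fun t => ((h1 t).mpr (h3 t)).1, ?_⟩
        intro j
        cases j with
        | none => exact h2
        | some t => exact ((h1 t).mpr (h3 t)).2
    rw [hset]
    have hsbs : (sb.card : ℝ) ≤ s.card := by
      exact_mod_cast Finset.card_filter_le _ _
    have hEqc : (((E * q : ℕ)) : ℝ) = (E : ℝ) * q := by push_cast; rfl
    rw [← hτ, hEqc] at hd1
    have hEqτ : ((E : ℝ) * q) ^ τ ≤ X ^ ((M : ℝ) / 2) := by
      calc ((E : ℝ) * q) ^ τ ≤ (X ^ (1 / 2 : ℝ)) ^ τ := by gcongr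
        _ = X ^ (1 / 2 * (τ : ℝ)) := by rw [Real.rpow_mul hXpos.le, Real.rpow_natCast]
        _ ≤ _ := hmono _ _ (by linarith)
    have t1 : ((E : ℝ) * q) ^ τ * ((3 * (τ : ℝ) + 4) * sb.card / K +
        (K : ℝ) ^ (3 * τ) * (s.card * X ^ (-(20 * (M : ℝ) ^ 2)))) ≤ δ := by
      have a1 : (3 * (τ : ℝ) + 4) * sb.card / K ≤ s.card * ((3 * M + 4) * X ^ (-(5 * (M : ℝ)))) := by
        rw [Real.rpow_neg hXpos.le]
        calc (3 * (τ : ℝ) + 4) * sb.card / K ≤ (3 * M + 4) * s.card / X ^ (5 * (M : ℝ)) := by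
              gcongr
          _ = _ := by rw [div_eq_mul_inv]; ring
      have a2 : (K : ℝ) ^ (3 * τ) * (s.card * X ^ (-(20 * (M : ℝ) ^ 2))) ≤
          s.card * X ^ (-(5 * (M : ℝ))) := by
        have a3 : (K : ℝ) ^ (3 * τ) ≤ X ^ (15 * (M : ℝ) ^ 2 + 3 * M) := by
          calc (K : ℝ) ^ (3 * τ) ≤ (K : ℝ) ^ (3 * M) := by
                apply pow_le_pow_right₀ (by exact_mod_cast hK1) (by omega)
            _ ≤ (X ^ (5 * (M : ℝ) + 1)) ^ (3 * M) := by gcongr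
            _ = X ^ (15 * (M : ℝ) ^ 2 + 3 * M) := by
              rw [← Real.rpow_natCast, ← Real.rpow_mul hXpos.le]
              congr 1
              push_cast
              ring
        calc (K : ℝ) ^ (3 * τ) * (s.card * X ^ (-(20 * (M : ℝ) ^ 2)))
            ≤ X ^ (15 * (M : ℝ) ^ 2 + 3 * M) * (s.card * X ^ (-(20 * (M : ℝ) ^ 2))) := by gcongr
          _ = s.card * X ^ (15 * (M : ℝ) ^ 2 + 3 * M + -(20 * (M : ℝ) ^ 2)) := by
              rw [Real.rpow_add hXpos (15 * (M : ℝ) ^ 2 + 3 * M)]; ring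
          _ ≤ _ := by
              apply mul_le_mul_of_nonneg_left _ hspos.le
              apply hmono
              nlinarith
      calc _ ≤ X ^ ((M : ℝ) / 2) * (s.card * ((3 * M + 4) * X ^ (-(5 * (M : ℝ)))) +
            s.card * X ^ (-(5 * (M : ℝ)))) := by gcongr
        _ = s.card * ((3 * M + 5) * (X ^ (-(5 * (M : ℝ))) * X ^ ((M : ℝ) / 2))) := by ring
        _ = s.card * ((3 * M + 5) * X ^ (-(5 * (M : ℝ)) + M / 2)) := by
            rw [← Real.rpow_add hXpos]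
        _ ≤ _ := by
            rw [hδ]
            gcongr
    have hEq1 : 1 ≤ ((E : ℝ) * q) ^ τ := one_le_pow₀ (by nlinarith)
    have t2 : |(sb.card : ℝ) / ((E : ℝ) * q) ^ τ - s.card / ((E : ℝ) ^ τ * (q : ℝ) ^ M)| ≤ δ := by
      have e1 : (sb.card : ℝ) / ((E : ℝ) * q) ^ τ - s.card / ((E : ℝ) ^ τ * (q : ℝ) ^ M) =
          (sb.card - s.card / q) / ((E : ℝ) * q) ^ τ := by
        have e0 : (q : ℝ) ^ M = (q : ℝ) ^ τ * q := by rw [hM, pow_succ]
        rw [e0, mul_pow]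
        field_simp
      rw [e1, abs_div, abs_of_pos (show (0 : ℝ) < ((E : ℝ) * q) ^ τ by positivity)]
      refine (div_le_self (abs_nonneg _) hEq1).trans (g1.trans ?_)
      rw [hδ]
      apply mul_le_mul_of_nonneg_left _ hspos.le
      exact hmono _ _ (by nlinarith)
    have t3 := hd1.trans t1
    have t4 := abs_le.mp t3
    have t5 := abs_le.mp t2
    rw [abs_le]
    constructor
    · linarith [t4.1, t5.1]
    · linarith [t4.2, t5.2]
  -- the cardinality of `s'`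
  have hcard : |(s'.card : ℝ) - s.card / (E : ℝ) ^ τ| ≤ 2 * δ := by
    have h1 := hmain 1 le_rfl (by
      rw [Nat.cast_one]
      exact Real.one_le_rpow hX1 (by norm_num)) (fun _ => 0)
    have h2 : s'.filter (fun i => ∀ j, ((1 : ℕ) : ℤ) ∣ w i j - 0) = s' := by
      apply Finset.filter_true_of_mem
      intro i _ j
      simp
    rw [h2] at h1
    simpa using h1
  have hEτ : (E : ℝ) ^ τ ≤ X ^ ((M : ℝ) / 10) := by
    calc (E : ℝ) ^ τ ≤ (X ^ (1 / 10 : ℝ)) ^ τ := by gcongr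
      _ = X ^ (1 / 10 * (τ : ℝ)) := by rw [Real.rpow_mul hXpos.le, Real.rpow_natCast]
      _ ≤ _ := hmono _ _ (by linarith)
  have hs'low : s.card * X ^ (-(M : ℝ)) ≤ s'.card := by
    have h1 : s.card * X ^ (-((M : ℝ) / 10)) ≤ s.card / (E : ℝ) ^ τ := by
      rw [Real.rpow_neg hXpos.le, ← div_eq_mul_inv]
      gcongr
    have h2 := (abs_le.mp hcard).1
    have h3 : (s.card : ℝ) * (3 * X ^ (-(M : ℝ))) ≤ s.card * X ^ (-((M : ℝ) / 10)) := by
      gcongr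
    have h4 : δ ≤ s.card * X ^ (-(M : ℝ)) := by
      rw [hδ]
      apply mul_le_mul_of_nonneg_left _ hspos.le
      exact hmono _ _ (by linarith)
    linarith
  have hs'pos : (0 : ℝ) < s'.card := lt_of_lt_of_le (by positivity) hs'low
  have hs'ne : s'.Nonempty := by
    rw [← Finset.card_pos]
    exact_mod_cast hs'pos
  have h4δ : 4 * δ ≤ s'.card * X ^ (-(2 * (M : ℝ))) := by
    calc 4 * δ = (s.card * X ^ (-(M : ℝ))) * (4 * X ^ (-(3 * (M : ℝ)))) := by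
          rw [hδ]
          have : X ^ (-(4 * (M : ℝ))) = X ^ (-(M : ℝ)) * X ^ (-(3 * (M : ℝ))) := by
            rw [← Real.rpow_add hXpos]
            congr 1
            ring
          rw [this]
          ring
      _ ≤ s'.card * X ^ (-(2 * (M : ℝ))) := by gcongr
  obtain ⟨i, hi, hcov⟩ := (hcr X hX0).2 ι s' w hs'ne (by
    intro q hq hqX ρ
    have h1 := abs_le.mp (hmain q hq hqX ρ)
    have hq1 : (1 : ℝ) ≤ (q : ℝ) ^ M := one_le_pow₀ (by exact_mod_cast hq)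
    have h2 : |(s'.card : ℝ) / (q : ℝ) ^ M - s.card / ((E : ℝ) ^ τ * (q : ℝ) ^ M)| ≤ 2 * δ := by
      have e1 : (s'.card : ℝ) / (q : ℝ) ^ M - s.card / ((E : ℝ) ^ τ * (q : ℝ) ^ M) =
          (s'.card - s.card / (E : ℝ) ^ τ) / (q : ℝ) ^ M := by
        rw [sub_div, div_div]
      rw [e1, abs_div, abs_of_pos (show (0 : ℝ) < (q : ℝ) ^ M by positivity)]
      exact (div_le_self (abs_nonneg _) hq1).trans hcard
    have h3 := abs_le.mp h2
    refine le_trans ?_ h4δ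
    rw [abs_le]
    constructor <;> linarith [h1.1, h1.2, h3.1, h3.2])
  rw [hs', Finset.mem_filter] at hi
  exact ⟨i, hi.1, hi.2, hcov⟩

end

end Pool.Agent.L5helper1.PS
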