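import Pool.Agent.N542.PC.Exp

set_option autoImplicit false
set_option maxHeartbeats 4000000
set_option maxHeartbeats 4000000

/-! # Exponential sums over the integers of a residue class, uniformly also in the class -/

namespace Pool.Agent.L5helper1.PS

open Finset Filter Topology
open Pool.Agent.H469R2.NK (e norm_e e_add)
open Pool.Agent.N542.PP (SV)
open Pool.Agent.TH915.PW (class_bound Hy)
open Pool.Agent.W147.PS (ev_pow)
open Pool.Agent.N542.PQ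
open Pool.Agent.N542.PC (exists_gap')

/-- sums over intervals of integers -/
theorem int_pd (Q d : ℕ) (hQ : 1 ≤ Q) (hQd : d ≤ Q) (c₁ c₂ δ : ℝ) (hc₁ : 0 < c₁) (hc₂ : c₁ ≤ c₂)
    (hδ : 0 < δ) (hδ1 : δ ≤ 1 / 2) :
    ∃ ρ : ℝ, 0 < ρ ∧ ρ ≤ 1 / 8 ∧ ∃ N₀ : ℕ, ∀ N N' : ℕ, N₀ ≤ N → N ≤ N' → N' ≤ 2 * N →
      ∀ (Φ σ τ : ℝ) (G : ℕ → ℝ → ℝ), (σ = 1 ∨ σ = -1) → (τ = 1 ∨ τ = -1) →
      (N : ℝ) ^ δ ≤ Φ → Φ ≤ (N : ℝ) ^ d → PD Q N Φ c₁ c₂ σ τ G →
      ‖∑ n ∈ Ioc N N', e (G 0 (n : ℝ))‖ ≤ (N : ℝ) ^ (1 - ρ) := by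
  have hc3 : c₁ / (2 * 3 ^ (Q + 1)) ≤ c₂ := by
    refine le_trans ?_ hc₂
    apply div_le_self hc₁.le
    have : (1 : ℝ) ≤ 3 ^ (Q + 1) := one_le_pow₀ (by norm_num)
    linarith
  obtain ⟨η, hη0, hη1, C, hC, hv⟩ := vdc_all Q hQ (c₁ / (2 * 3 ^ (Q + 1))) c₂ δ (by positivity)
    hc3 hδ hδ1
  obtain ⟨N₁, hN₁⟩ := eventually_atTop.mp (ev_pow (1 - η) (1 - η / 8) C (by linarith))
  refine ⟨η / 8, by positivity, by linarith, max ⌈N₁⌉₊ 1, ?_⟩
  intro N N' hN hNN hN2 Φ σ τ G hσ hτ hΦ1 hΦ2 hPD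
  have hN1 : 1 ≤ N := (le_max_right _ _).trans hN
  have hN1r : (1 : ℝ) ≤ N := by exact_mod_cast hN1
  have hNN₁ : N₁ ≤ N := (Nat.le_ceil N₁).trans (by exact_mod_cast (le_max_left _ _).trans hN)
  have hΦ0 : 0 < Φ := lt_of_lt_of_le (by positivity) hΦ1
  obtain ⟨L, rfl⟩ : ∃ L, N' = N + L := ⟨N' - N, by omega⟩
  have hL : L ≤ N := by omega
  have hLr : (L : ℝ) ≤ N := by exact_mod_cast hL
  have hHy := hyI hPD hc₁ hΦ0 (N : ℝ) (N + 1 : ℝ) ((N + 1 : ℝ) + L) 1 (by linarith) (by linarith)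
    (by linarith) (by push_cast; linarith) (by push_cast; linarith) hc₂
  have hfun : (fun (j : ℕ) (x : ℝ) => σ * (((1 : ℕ) : ℝ) ^ j * G j (((1 : ℕ) : ℝ) * x))) =
      fun (j : ℕ) (x : ℝ) => σ * G j x := by
    funext j x
    rw [Nat.cast_one, one_pow, one_mul, one_mul]
  rw [hfun] at hHy
  have h1 := hv N L (N + 1 : ℝ) Φ σ G hN1 hL hΦ1 (hΦ2.trans (pow_le_pow_right₀ hN1r hQd)) hσ hHy
  have h2 : ∑ n ∈ Ioc N (N + L), e (G 0 (n : ℝ)) =
      ∑ n ∈ range L, e (G 0 ((N + 1 : ℝ) + n)) := by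
    have h3 : Ioc N (N + L) = (range L).image (fun i => N + 1 + i) := by
      ext x
      rw [mem_Ioc, mem_image]
      constructor
      · intro hx
        exact ⟨x - (N + 1), by rw [mem_range]; omega, by omega⟩
      · rintro ⟨i, hi, rfl⟩
        rw [mem_range] at hi
        omega
    rw [h3, sum_image (fun a _ b _ hab => by simpa using hab)]
    refine sum_congr rfl fun i _ => ?_
    push_cast
    rfl
  rw [h2]
  exact h1.trans (hN₁ _ hNN₁)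

/-- the uniform bound for the exponential sums over the integers of a class -/
theorem exp_ints {r : ℕ} (hr : 1 ≤ r) (c u : Fin r → ℝ) (F : Fin r → ℕ → ℝ → ℝ)
    (hSV : ∀ j, SV (c j) (F j)) (hcn : ∀ j, ∀ n : ℕ, c j ≠ n)
    (hinj : Function.Injective (fun j => c j + u j)) (D : ℕ) (ε : ℝ)
    (hε : 0 < ε) (hε1 : ε ≤ 1 / 2) :
    ∃ ρ δ : ℝ, 0 < ρ ∧ ρ ≤ 1 / 8 ∧ 0 < δ ∧ ∀ᶠ Z : ℝ in atTop, ∀ (d b : ℕ) (α : Fin r → ℝ)
      (h : Fin r → ℤ) (q : ℕ) (P : Polynomial ℝ), 0 < d →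
      (∀ j, Z ^ (u j - δ) ≤ |α j| ∧ |α j| ≤ Z ^ (u j + δ)) → 1 ≤ q → (q : ℝ) ≤ Z ^ δ →
      (∃ j, h j ≠ 0 ∧ 0 < c j + u j) →
      (∀ j, |(h j : ℝ)| ≤ Z ^ δ) → P.natDegree ≤ D → ⌊Z⌋₊ < ⌊(1 + ε) * Z⌋₊ →
      ‖∑ p ∈ (Ioc ⌊Z⌋₊ ⌊(1 + ε) * Z⌋₊).filter (fun p => p ≡ b [MOD d]),
        e (∑ j, (h j : ℝ) * α j / q * F j 0 p + P.eval (p : ℝ))‖ ≤ Z ^ (1 - ρ) := by
  classical
  set v : Fin r → ℝ := fun j => c j + u j with hvdef
  obtain ⟨g, hg0, hg1, hgv, hgap⟩ := exists_gap' v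
  set V : ℝ := ∑ j, |v j| with hV
  have hV0 : 0 ≤ V := sum_nonneg fun _ _ => abs_nonneg _
  have hvV : ∀ j, v j ≤ V := fun j =>
    (le_abs_self _).trans (single_le_sum (f := fun j => |v j|) (fun _ _ => abs_nonneg _) (mem_univ j))
  set Cc : ℝ := ∑ j, |c j| with hCc
  have hCc0 : 0 ≤ Cc := sum_nonneg fun _ _ => abs_nonneg _
  have hcC : ∀ j, |c j| ≤ Cc := fun j =>
    single_le_sum (f := fun j => |c j|) (fun _ _ => abs_nonneg _) (mem_univ j)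
  set d₀ : ℕ := ⌈2 * (V + 2)⌉₊ with hd₀
  have hd₀1 : 2 * (V + 2) ≤ d₀ := Nat.le_ceil _
  set Q : ℕ := 8 * d₀ + 1 + D + 1 + ⌈Cc⌉₊ with hQdef
  have hQc : ∀ j, c j < Q + 1 := by
    intro j
    have h1 := (le_abs_self (c j)).trans (hcC j)
    have h2 := Nat.le_ceil Cc
    have h3 : ((⌈Cc⌉₊ : ℕ) : ℝ) ≤ Q := by exact_mod_cast (by omega : ⌈Cc⌉₊ ≤ Q)
    linarith
  -- bounds for the derivatives
  choose a₁ a₂ T₁ σ τ ha₁ ha₁₂ hT₁ hσ hτ hHB using fun j => hb_exists (hSV j) (hcn j) Q (hQc j)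
  have hne : (univ : Finset (Fin r)).Nonempty := ⟨⟨0, hr⟩, mem_univ _⟩
  set c₁ : ℝ := univ.inf' hne a₁ with hc₁def
  set c₂ : ℝ := univ.sup' hne a₂ with hc₂def
  set T : ℝ := univ.sup' hne T₁ with hTdef
  have hc₁ : 0 < c₁ := (Finset.lt_inf'_iff _).mpr fun j _ => ha₁ j
  have hc₁a : ∀ j, c₁ ≤ a₁ j := fun j => Finset.inf'_le _ (mem_univ j)
  have hc₂a : ∀ j, a₂ j ≤ c₂ := fun j => Finset.le_sup' _ (mem_univ j)
  have hTa : ∀ j, T₁ j ≤ T := fun j => Finset.le_sup' _ (mem_univ j)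
  have hc₂ : c₁ ≤ c₂ := (hc₁a ⟨0, hr⟩).trans ((ha₁₂ ⟨0, hr⟩).trans (hc₂a ⟨0, hr⟩))
  have hT : 1 ≤ T := (hT₁ ⟨0, hr⟩).trans (hTa ⟨0, hr⟩)
  have hHB' : ∀ j, HB Q c₁ c₂ T (σ j) (τ j) (F j) := fun j =>
    (hHB j).mono (hc₁a j) (hc₂a j) (hTa j)
  have hc₂0 : 0 < c₂ := by linarith
  have hQ0 : (0 : ℝ) ≤ Q := Nat.cast_nonneg Q
  obtain ⟨ρ, hρ0, hρ1, N₀, hsum⟩ := int_pd Q d₀ (by omega) (by omega) (c₁ / 2) (2 * (Q + 3) * c₂) (g / 2)
    (by positivity) (by nlinarith) (by positivity) (by linarith)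
  set κ₀ : ℝ := c₁ / (4 * (Q + 3) * c₂) with hκ₀
  have hκ₀0 : 0 < κ₀ := by positivity
  -- power bounds
  have hpb : ∀ᶠ y in atTop, ∀ j, y ^ (c j - g / 32) ≤ F j 0 y ∧ F j 0 y ≤ y ^ (c j + g / 32) := by
    rw [Filter.eventually_all]
    intro j
    exact power_bounds (hSV j) (g / 32) (by positivity)
  obtain ⟨T₂, hT₂⟩ := eventually_atTop.mp hpb
  set W : ℝ := 2 ^ (Cc + 1) with hW
  have hW1 : 1 ≤ W := Real.one_le_rpow (by norm_num) (by positivity)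
  have hW0 : 0 < W := by linarith
  refine ⟨ρ, g / 32, hρ0, hρ1, by positivity, ?_⟩
  filter_upwards [eventually_ge_atTop (max (max 4 (2 * T)) (max (2 * T₂) ((N₀ : ℝ) + 1))),
    (tendsto_rpow_atTop (show 0 < g / 4 by positivity)).eventually_ge_atTop W,
    (tendsto_rpow_atTop (show 0 < g / 2 by positivity)).eventually_ge_atTop (r * W * W / κ₀)]
    with Z hbig hgW hgR
  intro d b α h q P hd hα hq hqZ hh hhZ hPD hm01
  have hZ4 : 4 ≤ Z := ((le_max_left _ _).trans (le_max_left _ _)).trans hbig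
  have hZT : 2 * T ≤ Z := ((le_max_right _ _).trans (le_max_left _ _)).trans hbig
  have hZT₂ : 2 * T₂ ≤ Z := ((le_max_left _ _).trans (le_max_right _ _)).trans hbig
  have hZN : (N₀ : ℝ) + 1 ≤ Z := ((le_max_right _ _).trans (le_max_right _ _)).trans hbig
  have hZ0 : 0 < Z := by linarith
  have hZ1 : 1 ≤ Z := by linarith
  set m₀ : ℕ := ⌊Z⌋₊ with hm₀
  set m₁ : ℕ := ⌊(1 + ε) * Z⌋₊ with hm₁
  have hm04 : 4 ≤ m₀ := Nat.le_floor (by exact_mod_cast hZ4)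
  have hm0N : N₀ ≤ m₀ := Nat.le_floor (by linarith)
  have hm0Z : (m₀ : ℝ) ≤ Z := Nat.floor_le hZ0.le
  have hm0Z2 : Z / 2 ≤ (m₀ : ℝ) := by
    have := Nat.lt_floor_add_one Z
    rw [← hm₀] at this
    linarith
  have hm1' : (m₁ : ℝ) ≤ (1 + ε) * Z := Nat.floor_le (by positivity)
  have hm1 : (m₁ : ℝ) ≤ 2 * Z := by nlinarith
  have hm12 : m₁ ≤ 2 * m₀ := by
    have h2 := Nat.lt_floor_add_one Z
    rw [← hm₀] at h2
    have : (m₁ : ℝ) ≤ 2 * m₀ := by nlinarith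
    exact_mod_cast this
  have hTN : T ≤ m₀ := by linarith
  have hq0 : (0 : ℝ) < q := by exact_mod_cast hq
  have hq1 : (1 : ℝ) ≤ q := by exact_mod_cast hq
  -- the coefficients
  set θ : Fin r → ℝ := fun j => (h j : ℝ) * α j / q with hθ
  have hFb : ∀ j, (m₀ : ℝ) ^ (c j - g / 32) ≤ F j 0 m₀ ∧ F j 0 m₀ ≤ (m₀ : ℝ) ^ (c j + g / 32) :=
    hT₂ m₀ (by linarith)
  have hcab : ∀ j, |c j - g / 32| ≤ Cc + 1 ∧ |c j + g / 32| ≤ Cc + 1 := by
    intro j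
    have h1 := hcC j
    constructor
    · calc |c j - g / 32| ≤ |c j| + |g / 32| := abs_sub _ _
        _ ≤ _ := by rw [abs_of_pos (show 0 < g / 32 by positivity)]; linarith
    · calc |c j + g / 32| ≤ |c j| + |g / 32| := abs_add_le _ _
        _ ≤ _ := by rw [abs_of_pos (show 0 < g / 32 by positivity)]; linarith
  have hup : ∀ j, |θ j| * F j 0 m₀ ≤ W * Z ^ (v j + 3 * (g / 32)) := by
    intro j
    have h1 : |θ j| ≤ Z ^ (g / 32) * Z ^ (u j + g / 32) := by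
      rw [hθ]
      simp only
      rw [abs_div, abs_mul, abs_of_pos hq0]
      calc |(h j : ℝ)| * |α j| / q ≤ |(h j : ℝ)| * |α j| := div_le_self (by positivity) hq1
        _ ≤ _ := mul_le_mul (hhZ j) (hα j).2 (abs_nonneg _) (by positivity)
    have h2 : F j 0 m₀ ≤ W * Z ^ (c j + g / 32) :=
      (hFb j).2.trans (pow_cmp Z m₀ _ _ hZ0 hm0Z2 hm0Z (hcab j).2).1
    calc |θ j| * F j 0 m₀ ≤ (Z ^ (g / 32) * Z ^ (u j + g / 32)) * (W * Z ^ (c j + g / 32)) :=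
          mul_le_mul h1 h2 (le_trans (by positivity) (hFb j).1) (by positivity)
      _ = W * (Z ^ (g / 32) * Z ^ (u j + g / 32) * Z ^ (c j + g / 32)) := by ring
      _ = _ := by
        rw [← Real.rpow_add hZ0, ← Real.rpow_add hZ0, hvdef]
        congr 2
        ring
  have hdn : ∀ j, h j ≠ 0 → Z ^ (v j - 3 * (g / 32)) ≤ W * (|θ j| * F j 0 m₀) := by
    intro j hj
    have h0 : (1 : ℝ) ≤ |(h j : ℝ)| := by
      have := Int.one_le_abs hj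
      exact_mod_cast this
    have h1 : Z ^ (-(g / 32)) * Z ^ (u j - g / 32) ≤ |θ j| := by
      rw [hθ]
      simp only
      rw [abs_div, abs_mul, abs_of_pos hq0, Real.rpow_neg hZ0.le]
      calc (Z ^ (g / 32))⁻¹ * Z ^ (u j - g / 32) ≤ (q : ℝ)⁻¹ * |α j| := by
            apply mul_le_mul _ (hα j).1 (by positivity) (by positivity)
            exact inv_anti₀ hq0 hqZ
        _ = 1 * |α j| / q := by ring
        _ ≤ _ := by gcongr
    have h2 : Z ^ (c j - g / 32) ≤ W * F j 0 m₀ := by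
      refine (pow_cmp Z m₀ _ _ hZ0 hm0Z2 hm0Z (hcab j).1).2.trans ?_
      have := (hFb j).1
      gcongr
    calc Z ^ (v j - 3 * (g / 32)) = Z ^ (-(g / 32)) * Z ^ (u j - g / 32) * Z ^ (c j - g / 32) := by
          rw [← Real.rpow_add hZ0, ← Real.rpow_add hZ0, hvdef]
          congr 1
          ring
      _ ≤ |θ j| * (W * F j 0 m₀) := mul_le_mul h1 h2 (by positivity) (abs_nonneg _)
      _ = _ := by ring
  -- the dominating index
  have hex : ∃ j, h j ≠ 0 := by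
    obtain ⟨j, hj, _⟩ := hh
    exact ⟨j, hj⟩
  obtain ⟨j₀, hj₀, hmax⟩ := exists_max_image (univ.filter (fun j => h j ≠ 0)) v (by
    obtain ⟨j, hj⟩ := hex
    exact ⟨j, by simp [hj]⟩)
  have hj₀' : h j₀ ≠ 0 := by simpa using hj₀
  have hvj₀ : 0 < v j₀ := by
    obtain ⟨j, hj, hj2⟩ := hh
    exact lt_of_lt_of_le hj2 (hmax j (by simp [hj]))
  have hα₀ : 0 < |α j₀| := lt_of_lt_of_le (by positivity) (hα j₀).1
  have hθ₀ : θ j₀ ≠ 0 := by
    rw [hθ]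
    simp only
    have h1 : (h j₀ : ℝ) ≠ 0 := by exact_mod_cast hj₀'
    have h2 : α j₀ ≠ 0 := abs_pos.mp hα₀
    positivity
  set Φ : ℝ := |θ j₀| * F j₀ 0 m₀ with hΦ
  have hΦlo := hdn j₀ hj₀'
  rw [← hΦ] at hΦlo
  have hdom : ∑ j ∈ univ.erase j₀, |θ j| * F j 0 m₀ ≤ κ₀ * Φ := by
    have h1 : ∀ j ∈ univ.erase j₀, |θ j| * F j 0 m₀ ≤ W * Z ^ (v j₀ - g + 3 * (g / 32)) := by
      intro j hj
      rw [mem_erase] at hj
      by_cases hj0 : h j = 0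
      · have : θ j = 0 := by rw [hθ]; simp [hj0]
        rw [this, abs_zero, zero_mul]
        positivity
      · have h2 := hmax j (by simp [hj0])
        have h3 : v j ≠ v j₀ := fun h4 => hj.1 (hinj h4)
        have h4 := hgap j j₀ (lt_of_le_of_ne h2 h3)
        refine (hup j).trans ?_
        apply mul_le_mul_of_nonneg_left _ hW0.le
        exact Real.rpow_le_rpow_of_exponent_le hZ1 (by linarith)
    calc ∑ j ∈ univ.erase j₀, |θ j| * F j 0 m₀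
        ≤ ∑ _j ∈ univ.erase j₀, W * Z ^ (v j₀ - g + 3 * (g / 32)) := sum_le_sum h1
      _ = ((univ.erase j₀).card : ℝ) * (W * Z ^ (v j₀ - g + 3 * (g / 32))) := by
          rw [sum_const, nsmul_eq_mul]
      _ ≤ r * (W * Z ^ (v j₀ - g + 3 * (g / 32))) := by
          gcongr
          have h2 := card_le_univ (univ.erase j₀)
          rwa [Fintype.card_fin] at h2
      _ ≤ r * (W * Z ^ (v j₀ - 3 * (g / 32) - g / 2)) := by
          apply mul_le_mul_of_nonneg_left _ (Nat.cast_nonneg r)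
          apply mul_le_mul_of_nonneg_left _ hW0.le
          exact Real.rpow_le_rpow_of_exponent_le hZ1 (by linarith)
      _ = r * W * (Z ^ (v j₀ - 3 * (g / 32)) / Z ^ (g / 2)) := by
          rw [Real.rpow_sub hZ0]
          ring
      _ ≤ r * W * ((W * Φ) / Z ^ (g / 2)) := by gcongr
      _ = (r * W * W) * (Φ / Z ^ (g / 2)) := by ring
      _ ≤ (κ₀ * Z ^ (g / 2)) * (Φ / Z ^ (g / 2)) := by
          have h2 : r * W * W ≤ κ₀ * Z ^ (g / 2) := by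
            rw [div_le_iff₀ hκ₀0] at hgR
            linarith
          have h3 : 0 ≤ Φ := by
            have : 0 < Z ^ (v j₀ - 3 * (g / 32)) := by positivity
            by_contra h4
            rw [not_le] at h4
            nlinarith
          gcongr
      _ = κ₀ * Φ := by field_simp
  have hΦ1 : (m₀ : ℝ) ^ (g / 2) ≤ Φ := by
    have h1 : W * Z ^ (g / 2) ≤ W * Φ := by
      calc W * Z ^ (g / 2) ≤ Z ^ (g / 4) * Z ^ (g / 2) := by gcongr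
        _ = Z ^ (g / 4 + g / 2) := by rw [← Real.rpow_add hZ0]
        _ ≤ Z ^ (v j₀ - 3 * (g / 32)) :=
            Real.rpow_le_rpow_of_exponent_le hZ1 (by linarith [hgv j₀ hvj₀])
        _ ≤ _ := hΦlo
    have h2 : Z ^ (g / 2) ≤ Φ := le_of_mul_le_mul_left h1 hW0
    exact (Real.rpow_le_rpow (by positivity) hm0Z (by positivity)).trans h2
  have hΦ2 : Φ ≤ (m₀ : ℝ) ^ d₀ := by
    have hm0pos : (0 : ℝ) < m₀ := by linarith
    have hm0one : (1 : ℝ) ≤ m₀ := by exact_mod_cast (by omega : 1 ≤ m₀)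
    have h2 : Z ≤ (m₀ : ℝ) ^ (2 : ℝ) := by
      have h4 : (4 : ℝ) ≤ m₀ := by exact_mod_cast hm04
      rw [Real.rpow_two]
      nlinarith
    calc Φ ≤ W * Z ^ (v j₀ + 3 * (g / 32)) := hup j₀
      _ ≤ Z ^ (g / 4) * Z ^ (v j₀ + 3 * (g / 32)) := by gcongr
      _ = Z ^ (g / 4 + (v j₀ + 3 * (g / 32))) := by rw [← Real.rpow_add hZ0]
      _ ≤ Z ^ (V + 2) := Real.rpow_le_rpow_of_exponent_le hZ1 (by linarith [hvV j₀])
      _ ≤ ((m₀ : ℝ) ^ (2 : ℝ)) ^ (V + 2) := Real.rpow_le_rpow hZ0.le h2 (by positivity)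
      _ = (m₀ : ℝ) ^ (2 * (V + 2)) := by rw [← Real.rpow_mul hm0pos.le]
      _ ≤ (m₀ : ℝ) ^ ((d₀ : ℕ) : ℝ) := Real.rpow_le_rpow_of_exponent_le hm0one hd₀1
      _ = _ := Real.rpow_natCast _ _
  -- the sums
  have hm0r : (m₀ : ℝ) ^ (1 - ρ) ≤ Z ^ (1 - ρ) :=
    Real.rpow_le_rpow (by positivity) hm0Z (by linarith)
  refine class_bound (Ioc m₀ m₁) (fun n => e (∑ j, θ j * F j 0 n + P.eval (n : ℝ))) d hd b
    (Z ^ (1 - ρ)) ?_
  intro k hk
  set Pk : Polynomial ℝ := P + Polynomial.C ((k : ℝ) / d) * Polynomial.X with hPk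
  have hPkd : Pk.natDegree ≤ Q := by
    refine (Polynomial.natDegree_add_le _ _).trans (max_le (by omega) ?_)
    refine (Polynomial.natDegree_C_mul_le _ _).trans ?_
    rw [Polynomial.natDegree_X]
    omega
  obtain ⟨σ', τ', hσ', hτ', hPDk⟩ := pd_sum hc₁ hc₂ hT hσ hτ hHB' θ Pk hPkd j₀ hθ₀ m₀ hTN
    (by rw [← hκ₀, ← hΦ]; exact hdom)
  have h1 := hsum m₀ m₁ hm0N hm01.le hm12 Φ σ' τ' _ hσ' hτ' hΦ1 hΦ2 hPDk
  refine le_trans (le_of_eq ?_) (h1.trans hm0r)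
  congr 1
  refine sum_congr rfl fun n _ => ?_
  rw [← e_add]
  congr 1
  rw [GG, Function.iterate_zero, id, hPk, Polynomial.eval_add, Polynomial.eval_mul,
    Polynomial.eval_C, Polynomial.eval_X]
  ring

end Pool.Agent.L5helper1.PS
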