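import Mathlib

set_option autoImplicit false
set_option maxHeartbeats 4000000

/-! # Newton's formula with a remainder, and the integral parts -/

namespace Pool.Agent.L5helper1.PS

open Finset

/-- iterated differences -/
noncomputable def dif (g : ℝ → ℝ) : ℕ → ℝ → ℝ
  | 0, t => g t
  | m + 1, t => dif g m (t + 1) - dif g m t

/-- the remainder in Newton's formula -/
theorem newton_err (g : ℝ → ℝ) (t B : ℝ) (K : ℕ) :
    ∀ d m : ℕ, (∀ i ≤ K, |dif g (m + d) (t + i)| ≤ B) → ∀ k ≤ K,
      |dif g m (t + k) - ∑ l ∈ range d, (k.choose l : ℝ) * dif g (m + l) t| ≤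
        (k.choose d : ℝ) * B := by
  intro d
  induction d with
  | zero =>
    intro m hB k hk
    simpa using hB k hk
  | succ d ih =>
    intro m hB k
    induction k with
    | zero =>
      intro _
      rw [Finset.sum_range_succ']
      simp
    | succ k ihk =>
      intro hk
      have h1 := ihk (by omega)
      have h2 := ih (m + 1) (fun i hi => by
        have := hB i hi
        rwa [show m + 1 + d = m + (d + 1) by ring]) k (by omega)
      have e1 : dif g m (t + (k + 1 : ℕ)) = dif g m (t + k) + dif g (m + 1) (t + k) := by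
        rw [dif]
        push_cast
        rw [← add_assoc]
        ring
      have e2 : ∑ l ∈ range (d + 1), ((k + 1).choose l : ℝ) * dif g (m + l) t =
          ∑ l ∈ range (d + 1), (k.choose l : ℝ) * dif g (m + l) t +
          ∑ l ∈ range d, (k.choose l : ℝ) * dif g (m + 1 + l) t := by
        rw [Finset.sum_range_succ' _ d, Finset.sum_range_succ' _ d, Nat.choose_zero_right,
          Nat.choose_zero_right, add_assoc, add_comm ((((1 : ℕ) : ℝ)) * _), ← add_assoc,
          ← sum_add_distrib]
        congr 1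
        refine sum_congr rfl fun i _ => ?_
        rw [Nat.choose_succ_succ, show m + 1 + i = m + (i + 1) by ring]
        push_cast
        ring
      rw [e1, e2]
      have e3 : dif g m (t + k) + dif g (m + 1) (t + k) -
          (∑ l ∈ range (d + 1), (k.choose l : ℝ) * dif g (m + l) t +
          ∑ l ∈ range d, (k.choose l : ℝ) * dif g (m + 1 + l) t) =
          (dif g m (t + k) - ∑ l ∈ range (d + 1), (k.choose l : ℝ) * dif g (m + l) t) +
          (dif g (m + 1) (t + k) - ∑ l ∈ range d, (k.choose l : ℝ) * dif g (m + 1 + l) t) := by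
        ring
      rw [e3]
      refine (abs_add_le _ _).trans ?_
      have e4 : (((k + 1).choose (d + 1) : ℕ) : ℝ) = (k.choose d : ℝ) + (k.choose (d + 1) : ℝ) := by
        rw [Nat.choose_succ_succ]
        push_cast
        ring
      rw [e4]
      linarith

/-- the integral part of the value -/
theorem floor_newton (d k : ℕ) (y : ℕ → ℝ) (x η : ℝ)
    (h0 : 1 / 2 ≤ Int.fract (y 0)) (h0' : Int.fract (y 0) ≤ 3 / 4)
    (hl : ∀ l, 1 ≤ l → l ≤ d → Int.fract (y l) ≤ η)
    (hη : (∑ l ∈ range d, (k.choose (l + 1) : ℝ)) * η ≤ 1 / 8)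
    (hx : |x - ∑ l ∈ range (d + 1), (k.choose l : ℝ) * y l| ≤ 1 / 16) :
    ⌊x⌋ = ∑ l ∈ range (d + 1), (k.choose l : ℤ) * ⌊y l⌋ := by
  have h1 : ∑ l ∈ range (d + 1), (k.choose l : ℝ) * y l =
      ((∑ l ∈ range (d + 1), (k.choose l : ℤ) * ⌊y l⌋ : ℤ) : ℝ) +
        ∑ l ∈ range (d + 1), (k.choose l : ℝ) * Int.fract (y l) := by
    push_cast
    rw [← sum_add_distrib]
    refine sum_congr rfl fun l _ => ?_
    have := Int.floor_add_fract (y l)
    rw [← mul_add, this]
  have h2 : ∑ l ∈ range (d + 1), (k.choose l : ℝ) * Int.fract (y l) =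
      ∑ l ∈ range d, (k.choose (l + 1) : ℝ) * Int.fract (y (l + 1)) + Int.fract (y 0) := by
    rw [Finset.sum_range_succ', Nat.choose_zero_right, Nat.cast_one, one_mul]
  have h3 : ∑ l ∈ range d, (k.choose (l + 1) : ℝ) * Int.fract (y (l + 1)) ≤ 1 / 8 := by
    refine le_trans ?_ hη
    rw [sum_mul]
    apply sum_le_sum
    intro l hl'
    rw [mem_range] at hl'
    exact mul_le_mul_of_nonneg_left (hl (l + 1) (by omega) (by omega)) (Nat.cast_nonneg _)
  have h4 : 0 ≤ ∑ l ∈ range d, (k.choose (l + 1) : ℝ) * Int.fract (y (l + 1)) :=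
    sum_nonneg fun l _ => mul_nonneg (Nat.cast_nonneg _) (Int.fract_nonneg _)
  have h5 := abs_le.mp hx
  rw [h1, h2] at h5
  rw [Int.floor_eq_iff]
  constructor <;> linarith [h5.1, h5.2]

/-- the differences of a polynomial -/
noncomputable def pdf (P : Polynomial ℝ) : ℕ → Polynomial ℝ
  | 0 => P
  | m + 1 => (pdf P m).comp (Polynomial.X + Polynomial.C 1) - pdf P m

lemma pdf_eval (P : Polynomial ℝ) (m : ℕ) (t : ℝ) :
    dif (fun x => P.eval x) m t = (pdf P m).eval t := by
  induction m generalizing t with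
  | zero => rfl
  | succ m ih =>
    rw [dif, ih, ih, pdf, Polynomial.eval_sub, Polynomial.eval_comp, Polynomial.eval_add,
      Polynomial.eval_X, Polynomial.eval_C]

lemma pdf_natDegree (P : Polynomial ℝ) (m : ℕ) : (pdf P m).natDegree ≤ P.natDegree := by
  induction m with
  | zero => exact le_rfl
  | succ m ih =>
    rw [pdf]
    refine (Polynomial.natDegree_sub_le _ _).trans (max_le ?_ ih)
    refine (Polynomial.natDegree_comp_le).trans ?_
    have h1 : (Polynomial.X + Polynomial.C (1 : ℝ)).natDegree = 1 := Polynomial.natDegree_X_add_C 1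
    rw [h1, mul_one]
    exact ih

lemma dif_fwd (g : ℝ → ℝ) (m : ℕ) (t : ℝ) : dif g m t = (fwdDiff (1 : ℝ))^[m] g t := by
  induction m generalizing t with
  | zero => rfl
  | succ m ih =>
    rw [dif, ih, ih, Function.iterate_succ_apply', fwdDiff]

lemma dif_poly_zero (P : Polynomial ℝ) (m : ℕ) (hm : P.natDegree < m) (t : ℝ) :
    dif (fun x => P.eval x) m t = 0 := by
  rw [dif_fwd]
  exact congrFun (Polynomial.fwdDiff_iter_eq_zero_of_degree_lt hm) t

lemma dif_lin (a : ℝ) (g h : ℝ → ℝ) (m : ℕ) (t : ℝ) :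
    dif (fun x => a * g x + h x) m t = a * dif g m t + dif h m t := by
  induction m generalizing t with
  | zero => rfl
  | succ m ih =>
    rw [dif, ih, ih, dif, dif]
    ring

end Pool.Agent.L5helper1.PS
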