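import Pool.Agent.N542.PC.Diff
import Pool.Agent.L5helper1.PS.ExpInt
import Pool.Agent.L5helper1.PS.Newton

set_option autoImplicit false
set_option maxHeartbeats 4000000

/-! # Exponential sums with the differences of the functions -/

namespace Pool.Agent.L5helper1.PS

open Finset Filter Topology
open Pool.Agent.H469R2.NK (e norm_e e_add)
open Pool.Agent.N542.PP (SV)
open Pool.Agent.N542.PC (DF sv_iter)
open Pool.Agent.W147.PS (ev_pow)

lemma dif_DF (F : ℕ → ℝ → ℝ) (m : ℕ) (t : ℝ) : dif (F 0) m t = DF F m 0 t := by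
  induction m generalizing t with
  | zero => rfl
  | succ m ih => rw [dif, ih, ih, DF]

/-- the functions -/
noncomputable def gf {r : ℕ} (F : Fin r → ℕ → ℝ → ℝ) (α : Fin r → ℝ) (P : Fin r → Polynomial ℝ)
    (j : Fin r) (t : ℝ) : ℝ := α j * F j 0 t + (P j).eval t

lemma dif_gf {r : ℕ} (F : Fin r → ℕ → ℝ → ℝ) (α : Fin r → ℝ) (P : Fin r → Polynomial ℝ)
    (j : Fin r) (m : ℕ) (t : ℝ) :
    dif (gf F α P j) m t = α j * DF (F j) m 0 t + (pdf (P j) m).eval t := by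
  have h : gf F α P j = fun x => α j * F j 0 x + (fun x => (P j).eval x) x := rfl
  rw [h, dif_lin, dif_DF, pdf_eval]

theorem exp_newton {r : ℕ} (hr : 1 ≤ r) (c u : Fin r → ℝ) (F : Fin r → ℕ → ℝ → ℝ)
    (hSV : ∀ j, SV (c j) (F j)) (hcn : ∀ j, ∀ n : ℕ, c j ≠ n)
    (hinc : ∀ i j, i ≠ j → ∀ n : ℤ, (c i + u i) - (c j + u j) ≠ n)
    (d : Fin r → ℕ) (hd : ∀ j, (d j : ℝ) < c j + u j)
    (ε : ℝ) (hε : 0 < ε) (hε1 : ε ≤ 1 / 2) :
    ∃ ρ δ : ℝ, 0 < ρ ∧ ρ ≤ 1 / 8 ∧ 0 < δ ∧ ∀ᶠ Z : ℝ in atTop, ∀ (α : Fin r → ℝ)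
      (P : Fin r → Polynomial ℝ) (q : ℕ) (b : ℤ) (h : (Σ j : Fin r, Fin (d j + 1)) → ℤ),
      (∀ j, Z ^ (u j - δ) ≤ |α j| ∧ |α j| ≤ Z ^ (u j + δ)) → (∀ j, (P j).natDegree ≤ d j) →
      1 ≤ q → (q : ℝ) ≤ Z ^ δ → h ≠ 0 → (∀ t, |(h t : ℝ)| ≤ Z ^ δ) →
      ⌊Z⌋₊ < ⌊(1 + ε) * Z⌋₊ →
      ‖∑ n ∈ (Ioc ⌊Z⌋₊ ⌊(1 + ε) * Z⌋₊).filter (fun n : ℕ => (q : ℤ) ∣ (n : ℤ) - b),
        e (∑ t, (h t : ℝ) * (dif (gf F α P t.1) t.2 (n : ℝ) / q))‖ ≤ Z ^ (1 - ρ) := by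
  classical
  choose es hes hit using fun (j : Fin r) (m : ℕ) => sv_iter (hSV j) (hcn j) m
  have hes2 : ∀ j m, es j m * es j m = 1 := by
    intro j m
    rcases hes j m with h | h <;> simp [h]
  have hesa : ∀ j m, |es j m| = 1 := by
    intro j m
    rcases hes j m with h | h <;> simp [h]
  obtain ⟨R, hR1, ⟨E⟩⟩ : ∃ R : ℕ, 1 ≤ R ∧ Nonempty ((Σ j : Fin r, Fin (d j + 1)) ≃ Fin R) :=
    ⟨Fintype.card (Σ j : Fin r, Fin (d j + 1)), Fintype.card_pos_iff.mpr ⟨⟨⟨0, hr⟩, 0⟩⟩,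
      ⟨Fintype.equivFin _⟩⟩
  obtain ⟨ρ, δ, hρ, hρ1, hδ, hexp⟩ := exp_ints hR1
    (fun x => c (E.symm x).1 - ((E.symm x).2 : ℕ)) (fun x => u (E.symm x).1)
    (fun x j t => es (E.symm x).1 (E.symm x).2 * DF (F (E.symm x).1) (E.symm x).2 j t)
    (fun x => hit _ _) (by
      intro x n h
      have h1 := hcn (E.symm x).1 (n + ((E.symm x).2 : ℕ))
      apply h1
      push_cast
      linarith) (by
      intro x y hxy
      simp only at hxy
      apply E.symm.injective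
      by_cases h1 : (E.symm x).1 = (E.symm y).1
      · have hc' : c (E.symm x).1 = c (E.symm y).1 := by rw [h1]
        have hu' : u (E.symm x).1 = u (E.symm y).1 := by rw [h1]
        have h2 : (((E.symm x).2 : ℕ) : ℝ) = ((E.symm y).2 : ℕ) := by linarith
        have h3 : ((E.symm x).2 : ℕ) = (E.symm y).2 := by exact_mod_cast h2
        refine Sigma.ext h1 ?_
        exact (Fin.heq_ext_iff (by rw [h1])).mpr h3
      · exfalso
        apply hinc _ _ h1 (((E.symm x).2 : ℕ) - ((E.symm y).2 : ℕ))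
        push_cast
        linarith) (∑ j, d j) ε hε hε1
  refine ⟨ρ, δ, hρ, hρ1, hδ, ?_⟩
  filter_upwards [hexp] with Z hexp
  intro α P q b h hα hP hq hqZ hh hhZ hm
  have hq0 : (0 : ℤ) < q := by exact_mod_cast hq
  have hmain := hexp q (b % (q : ℤ)).toNat (fun x => es (E.symm x).1 (E.symm x).2 * α (E.symm x).1)
    (fun x => h (E.symm x)) q
    (∑ t, Polynomial.C ((h t : ℝ) / q) * pdf (P t.1) t.2) hq (by
      intro x
      rw [abs_mul, hesa, one_mul]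
      exact hα _) hq hqZ (by
      obtain ⟨t, ht⟩ : ∃ t, h t ≠ 0 := by
        by_contra hcon
        push Not at hcon
        exact hh (funext hcon)
      refine ⟨E t, by simpa using ht, ?_⟩
      show 0 < c (E.symm (E t)).1 - (((E.symm (E t)).2 : ℕ) : ℝ) + u (E.symm (E t)).1
      rw [Equiv.symm_apply_apply]
      have h1 := hd t.1
      have h2 : ((t.2 : ℕ) : ℝ) ≤ d t.1 := by exact_mod_cast Nat.lt_succ_iff.mp t.2.2
      linarith) (fun x => hhZ _) (by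
      apply Polynomial.natDegree_sum_le_of_forall_le
      intro t _
      refine (Polynomial.natDegree_C_mul_le _ _).trans ((pdf_natDegree _ _).trans ?_)
      exact (hP t.1).trans (single_le_sum (f := d) (fun _ _ => Nat.zero_le _) (mem_univ t.1))) hm
  refine le_trans (le_of_eq ?_) hmain
  have hfil : (Ioc ⌊Z⌋₊ ⌊(1 + ε) * Z⌋₊).filter (fun n : ℕ => (q : ℤ) ∣ (n : ℤ) - b) =
      (Ioc ⌊Z⌋₊ ⌊(1 + ε) * Z⌋₊).filter (fun n : ℕ => n ≡ (b % (q : ℤ)).toNat [MOD q]) := by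
    apply Finset.filter_congr
    intro n _
    have h1 : (((b % (q : ℤ)).toNat : ℕ) : ℤ) = b % q :=
      Int.toNat_of_nonneg (Int.emod_nonneg _ hq0.ne')
    rw [Nat.ModEq.comm, Nat.modEq_iff_dvd, h1]
    have h2 : (n : ℤ) - b % q = (n - b) + q * (b / q) := by
      have := Int.emod_add_mul_ediv b q
      linarith
    rw [h2]
    exact (Int.dvd_add_left (dvd_mul_right _ _)).symm
  rw [hfil]
  congr 1
  refine sum_congr rfl fun n _ => ?_
  congr 1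
  have e1 : ∀ t : (Σ j : Fin r, Fin (d j + 1)), (h t : ℝ) * (dif (gf F α P t.1) t.2 (n : ℝ) / q) =
      (h t : ℝ) * (es t.1 t.2 * α t.1) / q * (es t.1 t.2 * DF (F t.1) t.2 0 (n : ℝ)) +
      (h t : ℝ) / q * (pdf (P t.1) t.2).eval (n : ℝ) := by
    intro t
    rw [dif_gf]
    have := hes2 t.1 t.2
    calc (h t : ℝ) * ((α t.1 * DF (F t.1) t.2 0 (n : ℝ) + (pdf (P t.1) t.2).eval (n : ℝ)) / q)
        = (es t.1 t.2 * es t.1 t.2) * ((h t : ℝ) * α t.1 / q * DF (F t.1) t.2 0 (n : ℝ)) +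
          (h t : ℝ) / q * (pdf (P t.1) t.2).eval (n : ℝ) := by rw [this]; ring
      _ = _ := by ring
  rw [sum_congr rfl fun t _ => e1 t, sum_add_distrib, Polynomial.eval_finsetSum]
  congr 1
  · rw [← Equiv.sum_comp E.symm (fun t : (Σ j : Fin r, Fin (d j + 1)) =>
      (h t : ℝ) * (es t.1 t.2 * α t.1) / q * (es t.1 t.2 * DF (F t.1) t.2 0 (n : ℝ)))]
  · refine sum_congr rfl fun t _ => ?_
    rw [Polynomial.eval_mul, Polynomial.eval_C]

end Pool.Agent.L5helper1.PS
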