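import Pool.Agent.Y961.JR.ScaledJ
import Pool.Agent.L5helper1.PS.CritE

set_option autoImplicit false
set_option maxHeartbeats 4000000

/-! # From small exponential sums to many good members -/

namespace Pool.Agent.L5helper1.PS

open Finset Filter Topology
open Pool.Agent.H469R2.NK (e norm_e e_add)
open Pool.Agent.W147.PS (ff ff_compare ev_pow)
open Pool.Agent.Y961.JR (ff_scaled)

open scoped Classical

section

variable {r : ℕ} {d : Fin r → ℕ}

theorem manyP (hr : 1 ≤ r) (hd : ∀ j, 1 ≤ d j) (η : ℝ) (hη : 0 < η) (hη1 : η ≤ 1) :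
    ∃ κ η' : ℝ, 0 < κ ∧ 0 < η' ∧ ∀ᶠ Z : ℝ in atTop,
    ∀ (E : ℕ) (a : (Σ j : Fin r, Fin (d j + 1)) → ℤ), 1 ≤ E → (E : ℝ) ≤ Z ^ η' →
    (∀ t, 0 ≤ a t ∧ a t < E) →
    ∀ (ι : Type) (s : Finset ι) (u : ι → ℤ) (y : ι → (Σ j : Fin r, Fin (d j + 1)) → ℝ),
    s.Nonempty →
    (∀ q : ℕ, 1 ≤ q → (q : ℝ) ≤ Z ^ η → ∀ b : ℤ,
      |((s.filter (fun i => (q : ℤ) ∣ u i - b)).card : ℝ) - s.card / q| ≤
        s.card * Z ^ (-η) ∧
      ∀ h : (Σ j : Fin r, Fin (d j + 1)) → ℤ, h ≠ 0 → (∀ j, |(h j : ℝ)| ≤ Z ^ η) →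
      ‖∑ i ∈ s.filter (fun i => (q : ℤ) ∣ u i - b), e (∑ j, (h j : ℝ) * (y i j / q))‖ ≤
        s.card * Z ^ (-η)) →
    ∃ G ⊆ s, (s.card : ℝ) * Z ^ (-η) ≤ (G.card : ℝ) ∧ ∀ i ∈ G,
      (∀ t, (a t : ℝ) / E ≤ Int.fract (y i t) ∧ Int.fract (y i t) < ((a t : ℝ) + 1) / E) ∧
      ∀ c : Option (Fin r), ∀ k : ℕ, 1 ≤ k → (k : ℝ) ≤ κ * ff Z →
      ∃ p : ℕ, p.Prime ∧ (p : ℝ) ≤ Z ^ η ∧
        (p : ℤ) ∣ vl (cmb (u i) (fun t => ⌊y i t⌋)) c k := by
  obtain ⟨κ, hκ, B, hB1, hcrit⟩ := critE (d := d) hr hd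
  have hB1r : (1 : ℝ) ≤ B := by exact_mod_cast hB1
  set θ : ℝ := η / (2 * B) with hθ
  have hθ0 : 0 < θ := by positivity
  have hθη : θ ≤ η := div_le_self hη.le (by linarith)
  have hθ1 : θ ≤ 1 := hθη.trans hη1
  have hθB : θ * B = η / 2 := by rw [hθ]; field_simp
  refine ⟨κ * (θ / 32), θ / 10, by positivity, by positivity, ?_⟩
  filter_upwards [ff_compare θ hθ0 hθ1, (tendsto_rpow_atTop hθ0).eventually hcrit,
    eventually_ge_atTop (1 : ℝ), ev_pow (-η) (-(η / 2)) 4 (by linarith),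
    ev_pow (-η) 0 4 (by linarith)] with Z hff hcr hZ1 hp1 hp2
  rw [Real.rpow_zero] at hp2
  intro E a hE hEZ ha ι s u y hs hyp
  have hZ0 : 0 < Z := by linarith
  have hspos : (0 : ℝ) < s.card := by exact_mod_cast Finset.card_pos.mpr hs
  have hmono : ∀ x y : ℝ, x ≤ y → Z ^ x ≤ Z ^ y := fun x y h =>
    Real.rpow_le_rpow_of_exponent_le hZ1 h
  set G : Finset ι := s.filter (fun i =>
      (∀ t, (a t : ℝ) / E ≤ Int.fract (y i t) ∧ Int.fract (y i t) < ((a t : ℝ) + 1) / E) ∧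
      ∀ c : Option (Fin r), ∀ k : ℕ, 1 ≤ k → (k : ℝ) ≤ κ * (θ / 32) * ff Z →
      ∃ p : ℕ, p.Prime ∧ (p : ℝ) ≤ Z ^ η ∧
        (p : ℤ) ∣ vl (cmb (u i) (fun t => ⌊y i t⌋)) c k) with hG
  have hGs : G ⊆ s := filter_subset _ _
  refine ⟨G, hGs, ?_, fun i hi => (Finset.mem_filter.mp hi).2⟩
  by_contra hlt
  rw [not_le] at hlt
  set t : Finset ι := s \ G with ht
  have htcard : (t.card : ℝ) = s.card - G.card := by
    rw [ht, card_sdiff_of_subset hGs, Nat.cast_sub (card_le_card hGs)]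
  have htbig : 3 / 4 * (s.card : ℝ) ≤ t.card := by
    rw [htcard]
    nlinarith
  have hXB : (Z ^ θ) ^ B = Z ^ (η / 2) := by
    rw [← Real.rpow_natCast, ← Real.rpow_mul hZ0.le, hθB]
  have hXB' : (Z ^ θ) ^ (-(B : ℝ)) = Z ^ (-(η / 2)) := by
    rw [← Real.rpow_mul hZ0.le]
    congr 1
    rw [mul_neg, hθB]
  have hhalf : Z ^ (η / 2) ≤ Z ^ η := hmono _ _ (by linarith)
  have h34 : 3 / 4 * (s.card : ℝ) * Z ^ (-(η / 2)) ≤ t.card * Z ^ (-(η / 2)) := by gcongr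
  obtain ⟨i, hi, hi2, hi3⟩ := hcr E a hE (by
      rw [← Real.rpow_mul hZ0.le]
      refine hEZ.trans (hmono _ _ ?_)
      linarith) ha ι t u y (by
      rw [← Finset.card_pos]
      have : (0 : ℝ) < t.card := by linarith
      exact_mod_cast this) (by
      intro q hq hqZ b
      rw [hXB] at hqZ
      rw [hXB']
      have hq1 : (1 : ℝ) ≤ q := by exact_mod_cast hq
      obtain ⟨g1, g2⟩ := hyp q hq (hqZ.trans hhalf) b
      have hsub : G.filter (fun i => (q : ℤ) ∣ u i - b) ⊆ s.filter (fun i => (q : ℤ) ∣ u i - b) :=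
        Finset.filter_subset_filter _ hGs
      have hfil : t.filter (fun i => (q : ℤ) ∣ u i - b) =
          s.filter (fun i => (q : ℤ) ∣ u i - b) \ G.filter (fun i => (q : ℤ) ∣ u i - b) := by
        ext i
        simp only [ht, Finset.mem_filter, Finset.mem_sdiff]
        tauto
      have hGb : ((G.filter (fun i => (q : ℤ) ∣ u i - b)).card : ℝ) ≤ G.card := by
        exact_mod_cast Finset.card_filter_le _ _
      have hGb0 : (0 : ℝ) ≤ ((G.filter (fun i => (q : ℤ) ∣ u i - b)).card : ℝ) := Nat.cast_nonneg _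
      have hGq : (G.card : ℝ) / q ≤ G.card := div_le_self (Nat.cast_nonneg _) hq1
      have hGq0 : 0 ≤ (G.card : ℝ) / q := by positivity
      constructor
      · rw [hfil, card_sdiff_of_subset hsub, Nat.cast_sub (card_le_card hsub), htcard]
        have e1 : ((s.filter (fun i => (q : ℤ) ∣ u i - b)).card : ℝ) -
            (G.filter (fun i => (q : ℤ) ∣ u i - b)).card - (s.card - G.card) / q =
            (((s.filter (fun i => (q : ℤ) ∣ u i - b)).card : ℝ) - s.card / q) -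
            ((G.filter (fun i => (q : ℤ) ∣ u i - b)).card - G.card / q) := by ring
        rw [e1, ← htcard]
        have g3 := abs_le.mp g1
        rw [abs_le]
        constructor <;> nlinarith [g3.1, g3.2]
      · intro h hh hhX
        rw [hXB] at hhX
        have h1 := g2 h hh (fun j => (hhX j).trans hhalf)
        have h2 : ∑ i ∈ t.filter (fun i => (q : ℤ) ∣ u i - b), e (∑ j, (h j : ℝ) * (y i j / q)) =
            ∑ i ∈ s.filter (fun i => (q : ℤ) ∣ u i - b), e (∑ j, (h j : ℝ) * (y i j / q)) -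
            ∑ i ∈ G.filter (fun i => (q : ℤ) ∣ u i - b), e (∑ j, (h j : ℝ) * (y i j / q)) := by
          rw [hfil, ← sum_sdiff hsub]
          ring
        rw [h2]
        have h3 : ‖∑ i ∈ G.filter (fun i => (q : ℤ) ∣ u i - b),
            e (∑ j, (h j : ℝ) * (y i j / q))‖ ≤ G.card := by
          refine (norm_sum_le _ _).trans ?_
          simp only [norm_e, sum_const, nsmul_eq_mul, mul_one]
          exact hGb
        calc _ ≤ _ := norm_sub_le _ _
          _ ≤ s.card * Z ^ (-η) + G.card := add_le_add h1 h3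
          _ ≤ _ := by nlinarith)
  rw [ht] at hi
  have hi4 := Finset.mem_sdiff.mp hi
  apply hi4.2
  rw [hG, Finset.mem_filter]
  refine ⟨hi4.1, hi2, ?_⟩
  intro c k hk hk2
  obtain ⟨p, hp, hpX, hpd⟩ := hi3 c k hk (hk2.trans (ff_scaled κ θ Z hκ hθ1 hZ1 hff.2))
  refine ⟨p, hp, hpX.trans ?_, hpd⟩
  rw [← Real.rpow_mul hZ0.le]
  exact hmono _ _ (by linarith)

end

end Pool.Agent.L5helper1.PS
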