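import Pool.Agent.H256R2.SC.Par
import Pool.Agent.L5helper1.PS.Many
import Pool.Agent.L5helper1.PS.ExpN

set_option autoImplicit false
set_option maxHeartbeats 4000000

/-! # Record prime gaps without Piatetski-Shapiro primes -/

namespace Pool.Agent.L5helper1.PS

open Finset Filter Topology
open Pool.Agent.H469R2.NK (e norm_e e_add)
open Pool.Agent.N542.PP (SV)
open Pool.Agent.N542.PC (DF sv_iter)
open Pool.Agent.N542.PQ (power_bounds)
open Pool.Agent.W147.PS (ff ff_compare ev_pow)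

lemma ff_le_log : ∀ᶠ x : ℝ in atTop, 0 ≤ ff x ∧ ff x ≤ Real.log x ^ 4 := by
  filter_upwards [Pool.Agent.H256R2.SC.t4.eventually_ge_atTop 1, eventually_gt_atTop 0,
    Pool.Agent.H256R2.SC.t3.eventually_ge_atTop 1, Pool.Agent.H256R2.SC.t2.eventually_ge_atTop 1,
    Pool.Agent.H256R2.SC.t1.eventually_ge_atTop 1] with x g4 g0 g3 g2 g5
  have k2 : Real.log (Real.log x) ≤ Real.log x := (Real.log_le_self (by linarith))
  have k3 : Real.log (Real.log (Real.log x)) ≤ Real.log x :=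
    (Real.log_le_self (by linarith)).trans k2
  have k4 : Real.log (Real.log (Real.log (Real.log x))) ≤ Real.log x :=
    (Real.log_le_self (by linarith)).trans k3
  unfold ff
  constructor
  · positivity
  rw [div_le_iff₀ (by positivity)]
  calc Real.log x * Real.log (Real.log x) ^ 2 * Real.log (Real.log (Real.log (Real.log x))) ≤
      Real.log x * Real.log x ^ 2 * Real.log x := by gcongr
    _ = Real.log x ^ 4 * 1 := by ring
    _ ≤ Real.log x ^ 4 * Real.log (Real.log (Real.log x)) ^ 2 := by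
        apply mul_le_mul_of_nonneg_left _ (by positivity)
        nlinarith

/-- powers of the record scale are small -/
lemma ff_pow_small (κ C w : ℝ) (hκ : 0 < κ) (hC : 0 < C) (hw : 0 < w) (n : ℕ) :
    ∀ᶠ Z : ℝ in atTop, C * (κ * ff Z + 1) ^ n ≤ Z ^ w := by
  have h1 : ∀ᶠ Z : ℝ in atTop, Real.log Z ^ 4 ≤ Z ^ (w / (2 * ((n : ℝ) + 1))) := by
    set w' : ℝ := w / (2 * ((n : ℝ) + 1)) with hw'
    have hw'0 : 0 < w' := by positivity
    have h2 := (isLittleO_log_rpow_atTop (show (0 : ℝ) < w' / 4 by positivity)).def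
      (show (0 : ℝ) < 1 by norm_num)
    filter_upwards [h2, eventually_ge_atTop (1 : ℝ)] with Z h3 hZ1
    rw [Real.norm_of_nonneg (Real.log_nonneg hZ1), Real.norm_of_nonneg (by positivity),
      one_mul] at h3
    calc Real.log Z ^ 4 ≤ (Z ^ (w' / 4)) ^ 4 := pow_le_pow_left₀ (Real.log_nonneg hZ1) h3 4
      _ = Z ^ w' := by
        rw [← Real.rpow_natCast, ← Real.rpow_mul (by linarith)]
        congr 1
        push_cast
        ring
  have h2 : ∀ᶠ Z : ℝ in atTop, C * (κ + 1) ^ n * Z ^ (w / 2) ≤ Z ^ w :=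
    ev_pow (w / 2) w (C * (κ + 1) ^ n) (by linarith)
  filter_upwards [h1, h2, ff_le_log, eventually_ge_atTop (1 : ℝ)] with Z h3 h4 h5 hZ1
  have hZ0 : 0 < Z := by linarith
  have h6 : 1 ≤ Z ^ (w / (2 * ((n : ℝ) + 1))) := Real.one_le_rpow hZ1 (by positivity)
  have h7 : κ * ff Z + 1 ≤ (κ + 1) * Z ^ (w / (2 * ((n : ℝ) + 1))) := by
    have := mul_le_mul_of_nonneg_left (h5.2.trans h3) hκ.le
    nlinarith
  have h8 : 0 ≤ κ * ff Z + 1 := by
    have := mul_nonneg hκ.le h5.1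
    linarith
  calc C * (κ * ff Z + 1) ^ n ≤ C * ((κ + 1) * Z ^ (w / (2 * ((n : ℝ) + 1)))) ^ n := by gcongr
    _ = C * (κ + 1) ^ n * (Z ^ (w / (2 * ((n : ℝ) + 1)))) ^ n := by rw [mul_pow]; ring
    _ ≤ C * (κ + 1) ^ n * Z ^ (w / 2) := by
        apply mul_le_mul_of_nonneg_left _ (by positivity)
        rw [← Real.rpow_natCast, ← Real.rpow_mul hZ0.le]
        apply Real.rpow_le_rpow_of_exponent_le hZ1
        rw [div_mul_eq_mul_div, div_le_div_iff₀ (by positivity) (by norm_num)]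
        nlinarith
    _ ≤ _ := h4

lemma rpow_cmp (Z y a A : ℝ) (hZ : 0 < Z) (h1 : Z ≤ y) (h2 : y ≤ 3 * Z) (ha : |a| ≤ A) :
    y ^ a ≤ 3 ^ A * Z ^ a := by
  obtain ⟨ha1, ha2⟩ := abs_le.mp ha
  have hA : 0 ≤ A := (abs_nonneg a).trans ha
  rcases le_or_gt 0 a with h0 | h0
  · calc y ^ a ≤ (3 * Z) ^ a := Real.rpow_le_rpow (by linarith) h2 h0
      _ = 3 ^ a * Z ^ a := Real.mul_rpow (by norm_num) hZ.le
      _ ≤ 3 ^ A * Z ^ a := by
        gcongr
        norm_num
  · calc y ^ a ≤ Z ^ a := Real.rpow_le_rpow_of_nonpos hZ h1 h0.le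
      _ = 1 * Z ^ a := (one_mul _).symm
      _ ≤ 3 ^ A * Z ^ a := by
        gcongr
        exact Real.one_le_rpow (by norm_num) hA

/-- the integers of an interval are well distributed in the residue classes -/
lemma class_count (m₀ m₁ q : ℕ) (h : m₀ ≤ m₁) (hq : 1 ≤ q) (b : ℤ) :
    |(((Ioc m₀ m₁).filter (fun n : ℕ => (q : ℤ) ∣ (n : ℤ) - b)).card : ℝ) -
      ((Ioc m₀ m₁).card : ℝ) / q| ≤ 1 := by
  have hq0 : (0 : ℤ) < q := by exact_mod_cast hq
  have hfil : (Ioc m₀ m₁).filter (fun n : ℕ => (q : ℤ) ∣ (n : ℤ) - b) =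
      (Ioc m₀ m₁).filter (fun n : ℕ => n ≡ (b % (q : ℤ)).toNat [MOD q]) := by
    apply Finset.filter_congr
    intro n _
    have h1 : (((b % (q : ℤ)).toNat : ℕ) : ℤ) = b % q :=
      Int.toNat_of_nonneg (Int.emod_nonneg _ hq0.ne')
    rw [Nat.ModEq.comm, Nat.modEq_iff_dvd, h1]
    have h2 : (n : ℤ) - b % q = (n - b) + q * (b / q) := by
      have := Int.emod_add_mul_ediv b q
      linarith
    rw [h2]
    exact (Int.dvd_add_left (dvd_mul_right _ _)).symm
  rw [hfil]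
  set v : ℕ := (b % (q : ℤ)).toNat with hv
  have h1 := Nat.Ioc_filter_modEq_card m₀ m₁ (show 0 < q by omega) v
  have hqq : (0 : ℚ) < q := by exact_mod_cast hq
  have h2 : ((m₀ : ℚ) - v) / q ≤ ((m₁ : ℚ) - v) / q := by
    have : (m₀ : ℚ) ≤ m₁ := by exact_mod_cast h
    gcongr
  have h3 : ⌊((m₀ : ℚ) - v) / q⌋ ≤ ⌊((m₁ : ℚ) - v) / q⌋ := Int.floor_le_floor h2
  rw [max_eq_left (by linarith)] at h1
  have a1 := Int.floor_le (((m₁ : ℚ) - v) / q)
  have a2 := Int.lt_floor_add_one (((m₁ : ℚ) - v) / q)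
  have a3 := Int.floor_le (((m₀ : ℚ) - v) / q)
  have a4 := Int.lt_floor_add_one (((m₀ : ℚ) - v) / q)
  have h4 : ((((Ioc m₀ m₁).filter (fun n : ℕ => n ≡ v [MOD q])).card : ℕ) : ℚ) =
      (⌊((m₁ : ℚ) - v) / q⌋ : ℚ) - (⌊((m₀ : ℚ) - v) / q⌋ : ℚ) := by
    have := congrArg (fun z : ℤ => (z : ℚ)) h1
    push_cast at this
    exact this
  have h5 : (((Ioc m₀ m₁).card : ℕ) : ℚ) = (m₁ : ℚ) - m₀ := by
    rw [Nat.card_Ioc, Nat.cast_sub h]
  have h6 : |((((Ioc m₀ m₁).filter (fun n : ℕ => n ≡ v [MOD q])).card : ℕ) : ℚ) -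
      (((Ioc m₀ m₁).card : ℕ) : ℚ) / q| ≤ 1 := by
    rw [h4, h5]
    have e1 : ((m₁ : ℚ) - m₀) / q = ((m₁ : ℚ) - v) / q - ((m₀ : ℚ) - v) / q := by ring
    rw [e1, abs_le]
    constructor <;> linarith
  have h7 := (Rat.cast_le (K := ℝ)).mpr h6
  push_cast at h7
  exact h7

/-- a positive lower bound of finitely many positive numbers -/
lemma exists_low {r : ℕ} (x : Fin r → ℝ) (hx : ∀ j, 0 < x j) :
    ∃ w : ℝ, 0 < w ∧ w ≤ 1 ∧ ∀ j, w ≤ x j := by
  classical
  set S : Finset ℝ := insert 1 (univ.image x) with hS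
  have hne : S.Nonempty := ⟨1, by simp [hS]⟩
  refine ⟨S.min' hne, ?_, S.min'_le 1 (by simp [hS]), fun j => S.min'_le _ (by simp [hS])⟩
  rw [Finset.lt_min'_iff]
  intro y hy
  simp only [hS, mem_insert, mem_image, mem_univ, true_and] at hy
  rcases hy with rfl | ⟨j, rfl⟩
  · norm_num
  · exact hx j

theorem main_PS {r : ℕ} (hr : 1 ≤ r) (c u : Fin r → ℝ) (F : Fin r → ℕ → ℝ → ℝ)
    (hSV : ∀ j, SV (c j) (F j)) (hcn : ∀ j, ∀ n : ℕ, c j ≠ n)
    (hv1 : ∀ j, 1 < c j + u j) (hvn : ∀ j, ∀ n : ℕ, c j + u j ≠ n)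
    (hinc : ∀ i j, i ≠ j → ∀ n : ℤ, (c i + u i) - (c j + u j) ≠ n)
    (ε : ℝ) (hε : 0 < ε) (hε1 : ε ≤ 1 / 2) :
    ∃ κ δ : ℝ, 0 < κ ∧ 0 < δ ∧ ∀ᶠ Z : ℝ in atTop, ∀ (α : Fin r → ℝ)
      (P : Fin r → Polynomial ℝ),
      (∀ j, Z ^ (u j - δ) ≤ |α j| ∧ |α j| ≤ Z ^ (u j + δ)) →
      (∀ j, ((P j).natDegree : ℝ) < c j + u j) →
      ∃ G : Finset ℕ, Z ^ (1 - ε) ≤ (G.card : ℝ) ∧ ∀ n ∈ G, Z < n ∧ (n : ℝ) ≤ (1 + ε) * Z ∧
        ∀ m : ℕ, |(m : ℝ) - n| ≤ κ * ff Z →
          (∃ p : ℕ, p.Prime ∧ (p : ℝ) ≤ Z ^ ε ∧ p ∣ m) ∧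
          ∀ j, ∃ p : ℕ, p.Prime ∧ (p : ℝ) ≤ Z ^ ε ∧
            (p : ℤ) ∣ ⌊α j * F j 0 m + (P j).eval (m : ℝ)⌋ := by
  classical
  -- the degrees
  set d : Fin r → ℕ := fun j => ⌊c j + u j⌋₊ with hd
  have hdle : ∀ j, (d j : ℝ) < c j + u j := fun j =>
    lt_of_le_of_ne (Nat.floor_le (by linarith [hv1 j])) (fun h => hvn j _ h.symm)
  have hdlt : ∀ j, c j + u j < d j + 1 := fun j => Nat.lt_floor_add_one _
  have hd1 : ∀ j, 1 ≤ d j := fun j => Nat.le_floor (by exact_mod_cast (hv1 j).le)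
  obtain ⟨w, hw0, hw1, hw⟩ := exists_low (fun j => (d j : ℝ) + 1 - (c j + u j))
    (fun j => by linarith [hdlt j])
  set D : ℕ := ∑ j, d j with hD
  have hdD : ∀ j, d j ≤ D := fun j =>
    single_le_sum (f := d) (fun _ _ => Nat.zero_le _) (mem_univ j)
  set ε' : ℝ := ε / 2 with hε'
  have hε'0 : 0 < ε' := by positivity
  obtain ⟨ρ, δ₁, hρ0, hρ1, hδ₁, hexp⟩ := exp_newton hr c u F hSV hcn hinc d hdle ε' hε'0
    (by linarith)
  -- the differences of order `d j + 1`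
  choose es hes hit using fun (j : Fin r) (m : ℕ) => sv_iter (hSV j) (hcn j) m
  have hpb : ∀ᶠ y in atTop, ∀ j, y ^ (c j - ((d j + 1 : ℕ) : ℝ) - w / 8) ≤
      es j (d j + 1) * DF (F j) (d j + 1) 0 y ∧ es j (d j + 1) * DF (F j) (d j + 1) 0 y ≤
        y ^ (c j - ((d j + 1 : ℕ) : ℝ) + w / 8) := by
    rw [Filter.eventually_all]
    intro j
    exact power_bounds (hit j (d j + 1)) (w / 8) (by positivity)
  obtain ⟨T₀, hT₀⟩ := eventually_atTop.mp hpb
  set A : ℝ := ∑ j, |c j - ((d j + 1 : ℕ) : ℝ) + w / 8| with hA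
  have hAj : ∀ j, |c j - ((d j + 1 : ℕ) : ℝ) + w / 8| ≤ A := fun j =>
    single_le_sum (f := fun j => |c j - ((d j + 1 : ℕ) : ℝ) + w / 8|) (fun _ _ => abs_nonneg _)
      (mem_univ j)
  set δ : ℝ := min δ₁ (w / 8) with hδ
  have hδ0 : 0 < δ := lt_min hδ₁ (by positivity)
  have hδ1 : δ ≤ δ₁ := min_le_left _ _
  have hδw : δ ≤ w / 8 := min_le_right _ _
  set η : ℝ := min (min (ρ / 2) δ₁) (ε / 4) with hη
  have hη0 : 0 < η := lt_min (lt_min (by positivity) hδ₁) (by positivity)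
  have hηρ : η ≤ ρ / 2 := (min_le_left _ _).trans (min_le_left _ _)
  have hηδ : η ≤ δ₁ := (min_le_left _ _).trans (min_le_right _ _)
  have hηε : η ≤ ε / 4 := min_le_right _ _
  obtain ⟨κ₀, η', hκ₀, hη', hmany⟩ := manyP (d := d) hr hd1 η hη0 (by linarith)
  have hf1 : ∀ᶠ Z : ℝ in atTop, Real.log Z ≤ ff Z := by
    filter_upwards [ff_compare 1 one_pos le_rfl] with Z hZ using hZ.1
  have hf2 : ∀ᶠ Z : ℝ in atTop, 8 ≤ κ₀ * ff Z := by
    filter_upwards [hf1, Real.tendsto_log_atTop.eventually_ge_atTop (8 / κ₀)] with Z h1 h2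
    rw [div_le_iff₀ hκ₀] at h2
    nlinarith
  refine ⟨κ₀ / 8, δ, by positivity, hδ0, ?_⟩
  filter_upwards [hexp, hmany, hf2, eventually_ge_atTop (max 4 T₀),
    ff_pow_small κ₀ (16 * (D + 1) * 3 ^ A) (min (w / 2) (η' / 2)) hκ₀ (by positivity)
      (by positivity) (D + 1),
    ff_pow_small κ₀ (2 / ε) 1 hκ₀ (by positivity) one_pos 1,
    ev_pow (η' / 2) η' 2 (by linarith), (tendsto_rpow_atTop (show 0 < η' / 2 by positivity)).eventually_ge_atTop 4,
    ev_pow (1 - η) 1 (4 / ε) (by linarith), ev_pow 0 (1 - 2 * η) 1 (by linarith)]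
    with Z hexp hmany hff8 hZbig hpow hffZ hE1 hE2 hs1 hs2
  intro α P hα hPd
  have hZ4 : 4 ≤ Z := (le_max_left _ _).trans hZbig
  have hZT : T₀ ≤ Z := (le_max_right _ _).trans hZbig
  have hZ0 : 0 < Z := by linarith
  have hZ1 : 1 ≤ Z := by linarith
  have hmono : ∀ x y : ℝ, x ≤ y → Z ^ x ≤ Z ^ y := fun x y h =>
    Real.rpow_le_rpow_of_exponent_le hZ1 h
  have hPd' : ∀ j, (P j).natDegree ≤ d j := fun j => Nat.le_floor (hPd j).le
  set m₀ : ℕ := ⌊Z⌋₊ with hm₀
  set m₁ : ℕ := ⌊(1 + ε') * Z⌋₊ with hm₁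
  rw [Real.rpow_one] at hs1 hffZ
  rw [pow_one] at hffZ
  rw [Real.rpow_zero, one_mul] at hs2
  have hs1' : Z ^ (1 - η) ≤ ε / 4 * Z := by
    have h1 : ε / 4 * (4 / ε * Z ^ (1 - η)) ≤ ε / 4 * Z := by gcongr
    have h2 : ε / 4 * (4 / ε * Z ^ (1 - η)) = Z ^ (1 - η) := by field_simp
    linarith
  have hone : 1 ≤ Z ^ (1 - η) := Real.one_le_rpow hZ1 (by linarith)
  have hm0Z : (m₀ : ℝ) ≤ Z := Nat.floor_le hZ0.le
  have hm0Z' : Z < m₀ + 1 := Nat.lt_floor_add_one _
  have hm1Z : (m₁ : ℝ) ≤ (1 + ε') * Z := Nat.floor_le (by positivity)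
  have hm1Z' : (1 + ε') * Z < m₁ + 1 := Nat.lt_floor_add_one _
  have hm01r : Z ^ (1 - η) ≤ (m₁ : ℝ) - m₀ := by
    rw [hε'] at hm1Z'
    linarith
  have hm01 : m₀ < m₁ := by
    have : (m₀ : ℝ) < m₁ := by linarith
    exact_mod_cast this
  set s : Finset ℕ := Ioc m₀ m₁ with hs
  have hscard : (s.card : ℝ) = (m₁ : ℝ) - m₀ := by
    rw [hs, Nat.card_Ioc, Nat.cast_sub hm01.le]
  have hsbig : Z ^ (1 - η) ≤ (s.card : ℝ) := by rw [hscard]; exact hm01r
  have hsne : s.Nonempty := by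
    rw [← Finset.card_pos]
    have : (0 : ℝ) < s.card := by linarith
    exact_mod_cast this
  have hsη : Z ^ (1 - 2 * η) ≤ (s.card : ℝ) * Z ^ (-η) := by
    calc Z ^ (1 - 2 * η) = Z ^ (1 - η) * Z ^ (-η) := by
          rw [← Real.rpow_add hZ0]
          congr 1
          ring
      _ ≤ _ := by gcongr
  -- the modulus for the fractional parts
  set E₀ : ℕ := ⌊Z ^ (η' / 2)⌋₊ with hE₀
  have hE₀4 : 4 ≤ E₀ := Nat.le_floor (by exact_mod_cast hE2)
  have hE₀le : (E₀ : ℝ) ≤ Z ^ (η' / 2) := Nat.floor_le (by positivity)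
  have hE₀lt : Z ^ (η' / 2) < E₀ + 1 := Nat.lt_floor_add_one _
  have hE₀4r : (4 : ℝ) ≤ E₀ := by exact_mod_cast hE₀4
  set E : ℕ := 2 * E₀ with hE
  have hEr : (E : ℝ) = 2 * E₀ := by rw [hE]; push_cast; rfl
  have hElow : Z ^ (η' / 2) ≤ E := by rw [hEr]; linarith
  have hEup : (E : ℝ) ≤ Z ^ η' := by rw [hEr]; linarith
  have hE0 : (0 : ℝ) < E := by rw [hEr]; linarith
  set a : (Σ j : Fin r, Fin (d j + 1)) → ℤ := fun t => if (t.2 : ℕ) = 0 then (E₀ : ℤ) else 0
    with ha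
  obtain ⟨G₀, hG₀s, hG₀card, hG₀⟩ := hmany E a (by omega) hEup (by
      intro t
      simp only [ha]
      split_ifs
      · constructor
        · positivity
        · have : E₀ < E := by omega
          exact_mod_cast this
      · refine ⟨le_rfl, ?_⟩
        have : 0 < E := by omega
        exact_mod_cast this) ℕ s (fun n => (n : ℤ))
    (fun n t => dif (gf F α P t.1) t.2 (n : ℝ)) hsne (by
      intro q hq hqZ b
      constructor
      · refine (class_count m₀ m₁ q hm01.le hq b).trans ?_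
        linarith
      · intro h hh hhZ
        have hmδ : Z ^ η ≤ Z ^ δ₁ := hmono _ _ hηδ
        refine (hexp α P q b h (fun j => ⟨(hmono _ _ (by linarith)).trans (hα j).1,
          (hα j).2.trans (hmono _ _ (by linarith))⟩) hPd' hq (hqZ.trans hmδ) hh
          (fun t => (hhZ t).trans hmδ) hm01).trans ?_
        exact (hmono _ _ (by linarith)).trans hsη)
  -- the window
  have hff0 : 0 ≤ κ₀ * ff Z := by linarith
  have hffε : κ₀ * ff Z + 1 ≤ ε / 2 * Z := by
    have h1 : ε / 2 * (2 / ε * (κ₀ * ff Z + 1)) ≤ ε / 2 * Z := by gcongr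
    have h2 : ε / 2 * (2 / ε * (κ₀ * ff Z + 1)) = κ₀ * ff Z + 1 := by field_simp
    linarith
  have hnr : ∀ n ∈ G₀, Z < n ∧ (n : ℝ) ≤ (1 + ε') * Z := by
    intro n hn
    have h1 := hG₀s hn
    rw [hs, Finset.mem_Ioc] at h1
    refine ⟨(Nat.floor_lt hZ0.le).mp h1.1, ?_⟩
    have : (n : ℝ) ≤ m₁ := by exact_mod_cast h1.2
    linarith
  set S : ℝ := κ₀ * ff Z + 1 with hS
  have hS1 : 1 ≤ S := by linarith
  have hSpos : 0 < S ^ (D + 1) := by positivity
  have h3A : (1 : ℝ) ≤ 3 ^ A := Real.one_le_rpow (by norm_num)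
    (sum_nonneg fun _ _ => abs_nonneg _)
  have hpow1 : 16 * (D + 1) * 3 ^ A * S ^ (D + 1) ≤ Z ^ (w / 2) :=
    hpow.trans (hmono _ _ (min_le_left _ _))
  have hpow2 : 16 * (D + 1) * 3 ^ A * S ^ (D + 1) ≤ Z ^ (η' / 2) :=
    hpow.trans (hmono _ _ (min_le_right _ _))
  have hchoose : ∀ k l : ℕ, (k : ℝ) ≤ κ₀ * ff Z → l ≤ D + 1 → (k.choose l : ℝ) ≤ S ^ (D + 1) := by
    intro k l hk hl
    have h1 : (k.choose l : ℝ) ≤ (k : ℝ) ^ l := by exact_mod_cast Nat.choose_le_pow k l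
    calc (k.choose l : ℝ) ≤ (k : ℝ) ^ l := h1
      _ ≤ S ^ l := pow_le_pow_left₀ (Nat.cast_nonneg _) (by linarith) _
      _ ≤ S ^ (D + 1) := pow_le_pow_right₀ hS1 hl
  have hcore : ∀ n ∈ G₀, ∀ k : ℕ, 1 ≤ k → (k : ℝ) ≤ κ₀ * ff Z →
      (∃ p : ℕ, p.Prime ∧ (p : ℝ) ≤ Z ^ η ∧ p ∣ n + k) ∧
      ∀ j, ∃ p : ℕ, p.Prime ∧ (p : ℝ) ≤ Z ^ η ∧ (p : ℤ) ∣ ⌊gf F α P j ((n : ℝ) + k)⌋ := by
    intro n hn k hk1 hk2
    obtain ⟨hnZ, hnZ2⟩ := hnr n hn
    obtain ⟨hfr, hcov⟩ := hG₀ n hn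
    have hk1r : (1 : ℝ) ≤ k := by exact_mod_cast hk1
    constructor
    · obtain ⟨p, hp, hpZ, hpd⟩ := hcov none k hk1 hk2
      have h1 : vl (cmb (n : ℤ) (fun t : (Σ j : Fin r, Fin (d j + 1)) =>
          ⌊dif (gf F α P t.1) t.2 (n : ℝ)⌋)) none k = (n : ℤ) + k := rfl
      rw [h1] at hpd
      exact ⟨p, hp, hpZ, by exact_mod_cast hpd⟩
    · intro j
      obtain ⟨p, hp, hpZ, hpd⟩ := hcov (some j) k hk1 hk2
      -- the integral part
      have hfl : ⌊gf F α P j ((n : ℝ) + k)⌋ = ∑ l ∈ range (d j + 1),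
          (k.choose l : ℤ) * ⌊dif (gf F α P j) l (n : ℝ)⌋ := by
        apply floor_newton (d j) k (fun l => dif (gf F α P j) l (n : ℝ)) _ (1 / E)
        · have h1 := (hfr ⟨j, 0⟩).1
          simp only [ha] at h1
          have h2 : ((0 : Fin (d j + 1)) : ℕ) = 0 := rfl
          rw [h2, if_pos rfl] at h1
          have h3 : ((E₀ : ℤ) : ℝ) / E = 1 / 2 := by
            rw [hEr]
            push_cast
            field_simp
          rw [h3] at h1
          exact h1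
        · have h1 := (hfr ⟨j, 0⟩).2
          simp only [ha] at h1
          have h2 : ((0 : Fin (d j + 1)) : ℕ) = 0 := rfl
          rw [h2, if_pos rfl] at h1
          refine h1.le.trans ?_
          rw [div_le_iff₀ hE0, hEr]
          push_cast
          linarith
        · intro l hl1 hl2
          have h1 := (hfr ⟨j, ⟨l, by omega⟩⟩).2
          simp only [ha] at h1
          rw [if_neg (by omega)] at h1
          push_cast at h1
          rw [zero_add] at h1
          exact h1.le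
        · have h1 : ∑ l ∈ range (d j), (k.choose (l + 1) : ℝ) ≤ (D + 1) * S ^ (D + 1) := by
            calc ∑ l ∈ range (d j), (k.choose (l + 1) : ℝ) ≤ ∑ _l ∈ range (d j), S ^ (D + 1) := by
                  apply sum_le_sum
                  intro l hl
                  rw [mem_range] at hl
                  have := hdD j
                  exact hchoose k (l + 1) hk2 (by omega)
              _ = (d j : ℝ) * S ^ (D + 1) := by rw [sum_const, card_range, nsmul_eq_mul]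
              _ ≤ _ := by
                have : (d j : ℝ) ≤ D + 1 := by
                  have := hdD j
                  exact_mod_cast (by omega : d j ≤ D + 1)
                gcongr
          have h2 : 16 * ((D + 1) * S ^ (D + 1)) ≤ E := by
            have h3 : 16 * ((D + 1) * S ^ (D + 1)) ≤ 16 * (D + 1) * 3 ^ A * S ^ (D + 1) := by
              have h4 : 0 ≤ 16 * ((D : ℝ) + 1) * S ^ (D + 1) := by positivity
              have h5 := mul_le_mul_of_nonneg_left h3A h4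
              linarith
            linarith
          rw [mul_one_div, div_le_iff₀ hE0]
          linarith
        · have h1 := newton_err (gf F α P j) (n : ℝ) (3 ^ A * Z ^ (-(3 * w / 4))) k (d j + 1) 0 (by
            intro i hi
            have hir : (i : ℝ) ≤ k := by exact_mod_cast hi
            have hi0 : (0 : ℝ) ≤ i := Nat.cast_nonneg i
            rw [zero_add, dif_gf, ← pdf_eval, dif_poly_zero (P j) (d j + 1) (by
              have := hPd' j
              omega), add_zero, abs_mul]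
            set x : ℝ := (n : ℝ) + i with hx
            have hxZ : Z ≤ x := by linarith
            have hx3 : x ≤ 3 * Z := by
              have h7 : ε' * Z ≤ 1 / 4 * Z :=
                mul_le_mul_of_nonneg_right (by linarith) hZ0.le
              rw [hε'] at h7 hnZ2
              linarith
            obtain ⟨b1, b2⟩ := hT₀ x (hZT.trans hxZ) j
            have hx0 : 0 < x := by linarith
            have b3 : |DF (F j) (d j + 1) 0 x| = es j (d j + 1) * DF (F j) (d j + 1) 0 x := by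
              have b4 : 0 ≤ es j (d j + 1) * DF (F j) (d j + 1) 0 x :=
                le_trans (by positivity) b1
              rw [← abs_of_nonneg b4, abs_mul]
              rcases hes j (d j + 1) with h | h <;> simp [h]
            rw [b3]
            have b5 := b2.trans (rpow_cmp Z x _ A hZ0 hxZ hx3 (hAj j))
            calc |α j| * (es j (d j + 1) * DF (F j) (d j + 1) 0 x)
                ≤ Z ^ (u j + δ) * (3 ^ A * Z ^ (c j - ((d j + 1 : ℕ) : ℝ) + w / 8)) := by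
                  apply mul_le_mul (hα j).2 b5 (le_trans (by positivity) b1) (by positivity)
              _ = 3 ^ A * (Z ^ (u j + δ) * Z ^ (c j - ((d j + 1 : ℕ) : ℝ) + w / 8)) := by ring
              _ = 3 ^ A * Z ^ (u j + δ + (c j - ((d j + 1 : ℕ) : ℝ) + w / 8)) := by
                  rw [← Real.rpow_add hZ0]
              _ ≤ _ := by
                  apply mul_le_mul_of_nonneg_left _ (by positivity)
                  apply hmono
                  have := hw j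
                  push_cast
                  linarith) k le_rfl
          have e1 : dif (gf F α P j) 0 ((n : ℝ) + k) = gf F α P j ((n : ℝ) + k) := rfl
          rw [e1] at h1
          simp only [zero_add] at h1
          refine h1.trans ?_
          have h2 := hchoose k (d j + 1) hk2 (by have := hdD j; omega)
          have h3 : Z ^ (w / 2) * Z ^ (-(3 * w / 4)) ≤ 1 := by
            rw [← Real.rpow_add hZ0]
            exact Real.rpow_le_one_of_one_le_of_nonpos hZ1 (by linarith)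
          have h4 : 0 ≤ Z ^ (-(3 * w / 4)) := by positivity
          have h5 : 16 * (3 ^ A * S ^ (D + 1)) ≤ Z ^ (w / 2) := by
            refine le_trans ?_ hpow1
            have h6 : 0 ≤ 16 * (3 ^ A * S ^ (D + 1)) * (D : ℝ) := by positivity
            linarith
          calc (k.choose (d j + 1) : ℝ) * (3 ^ A * Z ^ (-(3 * w / 4)))
              ≤ S ^ (D + 1) * (3 ^ A * Z ^ (-(3 * w / 4))) := by gcongr
            _ = (3 ^ A * S ^ (D + 1)) * Z ^ (-(3 * w / 4)) := by ring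
            _ ≤ (Z ^ (w / 2) / 16) * Z ^ (-(3 * w / 4)) := by
                apply mul_le_mul_of_nonneg_right _ h4
                linarith
            _ = (Z ^ (w / 2) * Z ^ (-(3 * w / 4))) / 16 := by ring
            _ ≤ 1 / 16 := by linarith
      have hvl : vl (cmb (n : ℤ) (fun t : (Σ j : Fin r, Fin (d j + 1)) =>
          ⌊dif (gf F α P t.1) t.2 (n : ℝ)⌋)) (some j) k = ⌊gf F α P j ((n : ℝ) + k)⌋ := by
        rw [hfl, ← Fin.sum_univ_eq_sum_range (fun l => (k.choose l : ℤ) *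
          ⌊dif (gf F α P j) l (n : ℝ)⌋) (d j + 1)]
        simp only [vl, cmb]
        refine sum_congr rfl fun l _ => ?_
        rw [mul_comm]
      rw [hvl] at hpd
      exact ⟨p, hp, hpZ, hpd⟩
  -- the centres
  set hh : ℕ := ⌊κ₀ * ff Z / 2⌋₊ with hhh
  have hh1 : (hh : ℝ) ≤ κ₀ * ff Z / 2 := Nat.floor_le (by positivity)
  have hh2 : κ₀ * ff Z / 2 < hh + 1 := Nat.lt_floor_add_one _
  refine ⟨G₀.image (fun n => n + hh), ?_, ?_⟩
  · rw [card_image_of_injective _ (fun a b h => by simpa using h)]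
    refine le_trans ?_ hG₀card
    refine le_trans ?_ hsη
    exact hmono _ _ (by linarith)
  · intro N hN
    rw [mem_image] at hN
    obtain ⟨n, hn, rfl⟩ := hN
    obtain ⟨hnZ, hnZ2⟩ := hnr n hn
    have hh0 : (0 : ℝ) ≤ hh := Nat.cast_nonneg _
    push_cast
    refine ⟨by linarith, ?_, ?_⟩
    · rw [hε'] at hnZ2
      linarith
    · intro m hm
      have hm' := abs_le.mp hm
      have h1 : (n : ℝ) + 1 < m := by linarith [hm'.1]
      have h2 : n + 1 < m := by exact_mod_cast h1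
      obtain ⟨k, rfl⟩ : ∃ k, m = n + k := ⟨m - n, by omega⟩
      have hk : (k : ℝ) ≤ κ₀ * ff Z := by
        have := hm'.2
        push_cast at this
        linarith
      obtain ⟨g1, g2⟩ := hcore n hn k (by omega) hk
      have hZηε : Z ^ η ≤ Z ^ ε := hmono _ _ (by linarith)
      obtain ⟨p, hp, hpZ, hpd⟩ := g1
      refine ⟨⟨p, hp, hpZ.trans hZηε, hpd⟩, ?_⟩
      intro j
      obtain ⟨p, hp, hpZ, hpd⟩ := g2 j
      refine ⟨p, hp, hpZ.trans hZηε, ?_⟩
      push_cast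
      exact hpd

end Pool.Agent.L5helper1.PS
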